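import Pool.Agent.Hq78.ME.Exist

set_option autoImplicit false
set_option linter.unusedSectionVars false

open Finset Filter Topology
open scoped ContDiff

namespace Pool.Agent.Hq78.ME

variable {n : ℕ}

/-- Kernel of the linearised system. -/
theorem kernel {V : Matrix (Fin n) (Fin n) ℝ} (hV : ∀ i j, 0 ≤ V i j) (hI : Irr V)
    {s : ℝ} (hs : 0 < s) {q p : Fin n → ℝ} (h : Sys V s 0 q p) (hq : ∀ i, 0 < q i)
    (hp : ∀ i, 0 < p i) {u v : Fin n → ℝ}
    (h1 : ∀ i, u i * (s ^ 2 + psi V p i * phi V q i) +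
      q i * (psi V v i * phi V q i + psi V p i * phi V u i) - phi V u i +
      (∑ j, u j - ∑ j, v j) = 0)
    (h2 : ∀ i, v i * (s ^ 2 + psi V p i * phi V q i) +
      p i * (psi V v i * phi V q i + psi V p i * phi V u i) - psi V v i -
      (∑ j, u j - ∑ j, v j) = 0) : u = 0 ∧ v = 0 := by
  rcases Nat.eq_zero_or_pos n with hn | hn
  · subst hn
    exact ⟨funext fun i => i.elim0, funext fun i => i.elim0⟩
  have hne : Nonempty (Fin n) := ⟨⟨0, hn⟩⟩
  have hB : ∀ i, 0 < s ^ 2 + psi V p i * phi V q i := fun i => by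
    simpa using Sys.B_pos hV hs le_rfl h i
  have e1 : ∀ i, q i * (s ^ 2 + psi V p i * phi V q i) = phi V q i := fun i => by
    simpa using h.e1 i
  have e2 : ∀ i, p i * (s ^ 2 + psi V p i * phi V q i) = psi V p i := fun i => by
    simpa using h.e2 i
  have f1 : ∀ i, 0 < phi V q i := fun i => by rw [← e1]; exact mul_pos (hq i) (hB i)
  have f2 : ∀ i, 0 < psi V p i := fun i => by rw [← e2]; exact mul_pos (hp i) (hB i)
  have fl : ∀ i, q i * psi V p i = p i * phi V q i := fun i => by
    simpa using Sys.flow hV hs le_rfl h i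
  set δ : ℝ := ∑ j, u j - ∑ j, v j with hδ
  -- the constraint is satisfied
  have k1 : ∀ i, u i * psi V p i - v i * phi V q i - p i * phi V u i + q i * psi V v i =
      -δ * (p i + q i) := by
    intro i
    apply mul_right_cancel₀ (hB i).ne'
    have a1 := h1 i
    have a2 := h2 i
    have a3 := e1 i
    have a4 := e2 i
    have a5 := fl i
    linear_combination psi V p i * a1 - phi V q i * a2 + (psi V v i + δ) * a3 -
      (phi V u i - δ) * a4 - (psi V v i * phi V q i + psi V p i * phi V u i) * a5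
  have k2 : ∑ i, u i * psi V p i = ∑ i, p i * phi V u i := by
    unfold psi phi
    simp_rw [mul_sum]
    rw [sum_comm]
    exact sum_congr rfl fun i _ => sum_congr rfl fun j _ => by ring
  have k3 : ∑ i, v i * phi V q i = ∑ i, q i * psi V v i := by
    unfold psi phi
    simp_rw [mul_sum]
    rw [sum_comm]
    exact sum_congr rfl fun i _ => sum_congr rfl fun j _ => by ring
  have k4 : δ = 0 := by
    have h3 : ∑ i, (u i * psi V p i - v i * phi V q i - p i * phi V u i + q i * psi V v i) =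
        ∑ i, -δ * (p i + q i) := sum_congr rfl fun i _ => k1 i
    rw [sum_add_distrib, sum_sub_distrib, sum_sub_distrib, k2, k3, ← mul_sum] at h3
    have h4 : 0 < ∑ i, (p i + q i) := sum_pos (fun i _ => add_pos (hp i) (hq i)) univ_nonempty
    have h5 : δ * ∑ i, (p i + q i) = 0 := by linarith
    rcases mul_eq_zero.1 h5 with h6 | h6
    · exact h6
    · linarith
  -- maximum principle
  set a : Fin n → ℝ := fun i => u i / q i with ha
  set b : Fin n → ℝ := fun i => -v i / p i with hb
  have ua : ∀ i, u i = a i * q i := fun i => by rw [ha]; field_simp [(hq i).ne']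
  have vb : ∀ i, v i = -(b i * p i) := fun i => by
    rw [hb]; field_simp [(hp i).ne']
  obtain ⟨m, hma, hmb, hatt⟩ : ∃ m, (∀ i, a i ≤ m) ∧ (∀ i, b i ≤ m) ∧
      ((∃ i, a i = m) ∨ ∃ i, b i = m) := by
    obtain ⟨i, hi⟩ := Finite.exists_max a
    obtain ⟨j, hj⟩ := Finite.exists_max b
    rcases le_total (a i) (b j) with h3 | h3
    · exact ⟨b j, fun k => (hi k).trans h3, hj, Or.inr ⟨j, rfl⟩⟩
    · exact ⟨a i, hi, fun k => (hj k).trans h3, Or.inl ⟨i, rfl⟩⟩
  have c0 : ∀ i, 0 < 1 - q i * psi V p i := fun i => by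
    have := Sys.r_lt hV hs le_rfl h i
    simp only [add_zero] at this
    linarith
  -- bounds
  have pu : ∀ i, phi V u i ≤ m * phi V q i := fun i => by
    unfold phi; rw [mul_sum]
    refine sum_le_sum fun j _ => ?_
    rw [ua j]
    have := mul_le_mul_of_nonneg_left (mul_le_mul_of_nonneg_right (hma j) (hq j).le) (hV j i)
    linarith
  have pv : ∀ i, -psi V v i ≤ m * psi V p i := fun i => by
    unfold psi; rw [mul_sum, ← sum_neg_distrib]
    refine sum_le_sum fun j _ => ?_
    rw [vb j]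
    have := mul_le_mul_of_nonneg_left (mul_le_mul_of_nonneg_right (hmb j) (hp j).le) (hV i j)
    linarith
  have eqa : ∀ i, a i = m → phi V u i = m * phi V q i ∧ -psi V v i = m * psi V p i := by
    intro i hi
    have a1 := h1 i
    rw [k4] at a1
    have a3 := e1 i
    -- `u B = (1 - q ψ) φ(u) - q φ ψ(v)`
    have a4 : m * phi V q i = (1 - q i * psi V p i) * phi V u i +
        q i * phi V q i * (-psi V v i) := by
      have h5 : u i * (s ^ 2 + psi V p i * phi V q i) = m * phi V q i := by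
        calc u i * (s ^ 2 + psi V p i * phi V q i)
            = m * (q i * (s ^ 2 + psi V p i * phi V q i)) := by rw [ua i, hi]; ring
          _ = _ := by rw [a3]
      linear_combination a1 - h5
    have a5 := mul_le_mul_of_nonneg_left (pu i) (c0 i).le
    have hqf : 0 < q i * phi V q i := mul_pos (hq i) (f1 i)
    have a6 := mul_le_mul_of_nonneg_left (pv i) hqf.le
    have a7 : (1 - q i * psi V p i) * (m * phi V q i) + q i * phi V q i * (m * psi V p i) =
        m * phi V q i := by ring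
    constructor
    · have : (1 - q i * psi V p i) * phi V u i = (1 - q i * psi V p i) * (m * phi V q i) := by
        linarith
      exact mul_left_cancel₀ (c0 i).ne' this
    · have : q i * phi V q i * (-psi V v i) = q i * phi V q i * (m * psi V p i) := by linarith
      exact mul_left_cancel₀ hqf.ne' this
  have eqb : ∀ i, b i = m → phi V u i = m * phi V q i ∧ -psi V v i = m * psi V p i := by
    intro i hi
    have a1 := h2 i
    rw [k4] at a1
    have a3 := e2 i
    have a4 : m * psi V p i = (1 - q i * psi V p i) * (-psi V v i) +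
        p i * psi V p i * phi V u i := by
      have h5 : v i * (s ^ 2 + psi V p i * phi V q i) = -(m * psi V p i) := by
        calc v i * (s ^ 2 + psi V p i * phi V q i)
            = -(m * (p i * (s ^ 2 + psi V p i * phi V q i))) := by rw [vb i, hi]; ring
          _ = _ := by rw [a3]
      linear_combination h5 - a1 - psi V v i * fl i
    have a5 := mul_le_mul_of_nonneg_left (pv i) (c0 i).le
    have hqf : 0 < p i * psi V p i := mul_pos (hp i) (f2 i)
    have a6 := mul_le_mul_of_nonneg_left (pu i) hqf.le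
    have a7 : (1 - q i * psi V p i) * (m * psi V p i) + p i * psi V p i * (m * phi V q i) =
        m * psi V p i := by
      have := fl i
      linear_combination (-(m * psi V p i)) * this
    constructor
    · have : p i * psi V p i * phi V u i = p i * psi V p i * (m * phi V q i) := by linarith
      exact mul_left_cancel₀ hqf.ne' this
    · have : (1 - q i * psi V p i) * (-psi V v i) = (1 - q i * psi V p i) * (m * psi V p i) := by
        linarith
      exact mul_left_cancel₀ (c0 i).ne' this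
  have propa : ∀ i, phi V u i = m * phi V q i → ∀ j, 0 < V j i → a j = m := by
    intro i hi j hj
    by_contra hne
    have hlt : a j < m := lt_of_le_of_ne (hma j) hne
    have : phi V u i < m * phi V q i := by
      unfold phi; rw [mul_sum]
      apply sum_lt_sum
      · intro k _
        rw [ua k]
        have := mul_le_mul_of_nonneg_left (mul_le_mul_of_nonneg_right (hma k) (hq k).le) (hV k i)
        linarith
      · refine ⟨j, mem_univ j, ?_⟩
        rw [ua j]
        have := mul_lt_mul_of_pos_left (mul_lt_mul_of_pos_right hlt (hq j)) hj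
        linarith
    linarith
  have propb : ∀ i, -psi V v i = m * psi V p i → ∀ j, 0 < V i j → b j = m := by
    intro i hi j hj
    by_contra hne
    have hlt : b j < m := lt_of_le_of_ne (hmb j) hne
    have : -psi V v i < m * psi V p i := by
      unfold psi; rw [mul_sum, ← sum_neg_distrib]
      apply sum_lt_sum
      · intro k _
        rw [vb k]
        have := mul_le_mul_of_nonneg_left (mul_le_mul_of_nonneg_right (hmb k) (hp k).le) (hV i k)
        linarith
      · refine ⟨j, mem_univ j, ?_⟩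
        rw [vb j]
        have := mul_lt_mul_of_pos_left (mul_lt_mul_of_pos_right hlt (hp j)) hj
        linarith
    linarith
  have pred : ∀ i, ∃ j, 0 < V j i := by
    intro i
    by_contra hcon
    push Not at hcon
    have : phi V q i ≤ 0 := sum_nonpos fun k _ =>
      mul_nonpos_of_nonpos_of_nonneg (hcon k) (hq k).le
    linarith [f1 i]
  obtain ⟨i0, hi0⟩ : ∃ i, a i = m := by
    rcases hatt with h3 | ⟨i, hi⟩
    · exact h3
    · obtain ⟨j, hj⟩ := pred i
      exact ⟨j, propa i (eqb i hi).1 j hj⟩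
  have hall : ∀ i, a i = m := by
    intro k
    by_contra hk
    obtain ⟨i, j, hi, hj, hij⟩ := exists_cross (S := {i | ¬ a i = m}) (hI k i0) hk
      (not_not.2 hi0)
    have hj' := not_not.1 hj
    exact hi (propa j (eqa j hj').1 i hij)
  have hallb : ∀ i, b i = m := by
    intro j
    obtain ⟨i, hi⟩ := pred j
    exact propb i (eqa i (hall i)).2 j hi
  have su : ∑ j, u j = m * ∑ j, q j := by
    rw [mul_sum]; exact sum_congr rfl fun i _ => by rw [ua i, hall i]
  have sv : ∑ j, v j = -(m * ∑ j, p j) := by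
    rw [mul_sum, ← sum_neg_distrib]; exact sum_congr rfl fun i _ => by rw [vb i, hallb i]
  have hm : m = 0 := by
    have h3 : 0 < ∑ i, p i := sum_pos (fun i _ => hp i) univ_nonempty
    have h4 : 0 < ∑ i, q i := sum_pos (fun i _ => hq i) univ_nonempty
    have h5 : m * (∑ i, q i + ∑ i, p i) = 0 := by
      have : δ = m * (∑ i, q i + ∑ i, p i) := by rw [hδ, su, sv]; ring
      rw [← this, k4]
    rcases mul_eq_zero.1 h5 with h6 | h6
    · exact h6
    · linarith
  exact ⟨funext fun i => by rw [ua i, hall i, hm, zero_mul]; rfl,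
    funext fun i => by rw [vb i, hallb i, hm, zero_mul, neg_zero]; rfl⟩

/-- The map to which the inverse function theorem is applied. -/
noncomputable def HH (V : Matrix (Fin n) (Fin n) ℝ) (x : ℝ × ((Fin n → ℝ) × (Fin n → ℝ))) :
    ℝ × ((Fin n → ℝ) × (Fin n → ℝ)) :=
  (x.1, (fun i => x.2.1 i * (x.1 ^ 2 + psi V x.2.2 i * phi V x.2.1 i) - phi V x.2.1 i +
      (∑ j, x.2.1 j - ∑ j, x.2.2 j),
    fun i => x.2.2 i * (x.1 ^ 2 + psi V x.2.2 i * phi V x.2.1 i) - psi V x.2.2 i -
      (∑ j, x.2.1 j - ∑ j, x.2.2 j)))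

theorem contDiff_HH (V : Matrix (Fin n) (Fin n) ℝ) : ContDiff ℝ ω (HH V) := by
  unfold HH phi psi
  fun_prop

theorem phi_add_smul (V : Matrix (Fin n) (Fin n) ℝ) (q u : Fin n → ℝ) (τ : ℝ) (i : Fin n) :
    phi V (q + τ • u) i = phi V q i + τ * phi V u i := by
  unfold phi
  rw [mul_sum, ← sum_add_distrib]
  exact sum_congr rfl fun j _ => by simp; ring

theorem psi_add_smul (V : Matrix (Fin n) (Fin n) ℝ) (q u : Fin n → ℝ) (τ : ℝ) (i : Fin n) :
    psi V (q + τ • u) i = psi V q i + τ * psi V u i := by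
  unfold psi
  rw [mul_sum, ← sum_add_distrib]
  exact sum_congr rfl fun j _ => by simp; ring

theorem sum_add_smul (q u : Fin n → ℝ) (τ : ℝ) :
    ∑ i, (q + τ • u) i = ∑ i, q i + τ * ∑ i, u i := by
  rw [mul_sum, ← sum_add_distrib]
  exact sum_congr rfl fun j _ => by simp

theorem fderiv_inj {V : Matrix (Fin n) (Fin n) ℝ} (hV : ∀ i j, 0 ≤ V i j) (hI : Irr V)
    {s : ℝ} (hs : 0 < s) {q p : Fin n → ℝ} (h : Sys V s 0 q p) (hq : ∀ i, 0 < q i)
    (hp : ∀ i, 0 < p i) : Function.Injective (fderiv ℝ (HH V) (s, (q, p))) := by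
  rw [injective_iff_map_eq_zero]
  rintro ⟨σ, u, v⟩ hw
  have hd : HasFDerivAt (HH V) (fderiv ℝ (HH V) (s, (q, p))) (s, (q, p)) :=
    ((contDiff_HH V).differentiable (by simp) _).hasFDerivAt
  -- derivative along the line
  have hline : HasDerivAt (fun τ : ℝ => (s, (q, p)) + τ • (σ, (u, v))) (σ, (u, v)) 0 := by
    have h1 : HasDerivAt (fun τ : ℝ => τ • (σ, (u, v))) ((1 : ℝ) • (σ, (u, v))) 0 :=
      (hasDerivAt_id (0 : ℝ)).smul_const _
    rw [one_smul] at h1
    exact h1.const_add _
  have hcomp : HasDerivAt (fun τ : ℝ => HH V ((s, (q, p)) + τ • (σ, (u, v))))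
      (fderiv ℝ (HH V) (s, (q, p)) (σ, (u, v))) 0 := by
    have h1 : HasFDerivAt (HH V) (fderiv ℝ (HH V) (s, (q, p)))
        ((s, (q, p)) + (0 : ℝ) • (σ, (u, v))) := by simpa using hd
    exact h1.comp_hasDerivAt (0 : ℝ) hline
  rw [hw] at hcomp
  -- first component
  have hσ : σ = 0 := by
    have h1 : HasDerivAt (fun τ : ℝ => (HH V ((s, (q, p)) + τ • (σ, (u, v)))).1) 0 0 :=
      ((ContinuousLinearMap.fst ℝ ℝ ((Fin n → ℝ) × (Fin n → ℝ))).hasFDerivAt.comp_hasDerivAt
        (0 : ℝ) hcomp)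
    have h2 : HasDerivAt (fun τ : ℝ => (HH V ((s, (q, p)) + τ • (σ, (u, v)))).1) σ 0 := by
      have : (fun τ : ℝ => (HH V ((s, (q, p)) + τ • (σ, (u, v)))).1) = fun τ => s + τ * σ := by
        funext τ; simp [HH]
      rw [this]
      simpa using ((hasDerivAt_id (0 : ℝ)).mul_const σ).const_add s
    exact h2.unique h1
  subst hσ
  have hd1 : ∀ i, u i * (s ^ 2 + psi V p i * phi V q i) +
      q i * (psi V v i * phi V q i + psi V p i * phi V u i) - phi V u i +
      (∑ j, u j - ∑ j, v j) = 0 := by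
    intro i
    have h1 : HasDerivAt (fun τ : ℝ => (HH V ((s, (q, p)) + τ • ((0 : ℝ), (u, v)))).2.1 i) 0 0 := by
      have h3 := hasFDerivAt_snd.comp_hasDerivAt (0 : ℝ) hcomp
      have h4 := hasFDerivAt_fst.comp_hasDerivAt (0 : ℝ) h3
      exact (hasDerivAt_pi.1 h4) i
    have h2 : HasDerivAt (fun τ : ℝ => (HH V ((s, (q, p)) + τ • ((0 : ℝ), (u, v)))).2.1 i)
        (u i * (s ^ 2 + psi V p i * phi V q i) +
      q i * (psi V v i * phi V q i + psi V p i * phi V u i) - phi V u i +
      (∑ j, u j - ∑ j, v j)) 0 := by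
      have e : (fun τ : ℝ => (HH V ((s, (q, p)) + τ • ((0 : ℝ), (u, v)))).2.1 i) =
          fun τ : ℝ => (q i + τ * u i) * (s ^ 2 + (psi V p i + τ * psi V v i) *
            (phi V q i + τ * phi V u i)) - (phi V q i + τ * phi V u i) +
            ((∑ j, q j + τ * ∑ j, u j) - (∑ j, p j + τ * ∑ j, v j)) := by
        funext τ
        simp only [HH, Prod.smul_mk, Prod.mk_add_mk, phi_add_smul, psi_add_smul, sum_add_smul]
        simp
      rw [e]
      have t1 : ∀ c d : ℝ, HasDerivAt (fun τ : ℝ => c + τ * d) d 0 := fun c d => by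
        simpa using ((hasDerivAt_id (0 : ℝ)).mul_const d).const_add c
      have := (((t1 (q i) (u i)).mul (((t1 (psi V p i) (psi V v i)).mul
        (t1 (phi V q i) (phi V u i))).const_add (s ^ 2))).sub (t1 (phi V q i) (phi V u i))).add
        ((t1 (∑ j, q j) (∑ j, u j)).sub (t1 (∑ j, p j) (∑ j, v j)))
      refine HasDerivAt.congr_deriv this ?_
      simp
    exact h2.unique h1
  have hd2 : ∀ i, v i * (s ^ 2 + psi V p i * phi V q i) +
      p i * (psi V v i * phi V q i + psi V p i * phi V u i) - psi V v i -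
      (∑ j, u j - ∑ j, v j) = 0 := by
    intro i
    have h1 : HasDerivAt (fun τ : ℝ => (HH V ((s, (q, p)) + τ • ((0 : ℝ), (u, v)))).2.2 i) 0 0 := by
      have h3 := hasFDerivAt_snd.comp_hasDerivAt (0 : ℝ) hcomp
      have h4 := hasFDerivAt_snd.comp_hasDerivAt (0 : ℝ) h3
      exact (hasDerivAt_pi.1 h4) i
    have h2 : HasDerivAt (fun τ : ℝ => (HH V ((s, (q, p)) + τ • ((0 : ℝ), (u, v)))).2.2 i)
        (v i * (s ^ 2 + psi V p i * phi V q i) +
      p i * (psi V v i * phi V q i + psi V p i * phi V u i) - psi V v i -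
      (∑ j, u j - ∑ j, v j)) 0 := by
      have e : (fun τ : ℝ => (HH V ((s, (q, p)) + τ • ((0 : ℝ), (u, v)))).2.2 i) =
          fun τ : ℝ => (p i + τ * v i) * (s ^ 2 + (psi V p i + τ * psi V v i) *
            (phi V q i + τ * phi V u i)) - (psi V p i + τ * psi V v i) -
            ((∑ j, q j + τ * ∑ j, u j) - (∑ j, p j + τ * ∑ j, v j)) := by
        funext τ
        simp only [HH, Prod.smul_mk, Prod.mk_add_mk, phi_add_smul, psi_add_smul, sum_add_smul]
        simp
      rw [e]
      have t1 : ∀ c d : ℝ, HasDerivAt (fun τ : ℝ => c + τ * d) d 0 := fun c d => by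
        simpa using ((hasDerivAt_id (0 : ℝ)).mul_const d).const_add c
      have := (((t1 (p i) (v i)).mul (((t1 (psi V p i) (psi V v i)).mul
        (t1 (phi V q i) (phi V u i))).const_add (s ^ 2))).sub (t1 (psi V p i) (psi V v i))).sub
        ((t1 (∑ j, q j) (∑ j, u j)).sub (t1 (∑ j, p j) (∑ j, v j)))
      refine HasDerivAt.congr_deriv this ?_
      simp
    exact h2.unique h1
  obtain ⟨h3, h4⟩ := kernel hV hI hs h hq hp hd1 hd2
  rw [h3, h4]; rfl

/-- A zero of the modified equations near a positive point solves the system. -/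
theorem sys_of_zero {V : Matrix (Fin n) (Fin n) ℝ} (hV : ∀ i j, 0 ≤ V i j)
    (hpred : ∀ i, ∃ j, 0 < V j i) {s : ℝ} (hs : 0 < s) {q p : Fin n → ℝ}
    (hq : ∀ i, 0 < q i) (hp : ∀ i, 0 < p i) (h : HH V (s, (q, p)) = (s, 0)) :
    Sys V s 0 q p := by
  have h1 : ∀ i, q i * (s ^ 2 + psi V p i * phi V q i) - phi V q i +
      (∑ j, q j - ∑ j, p j) = 0 := fun i => congrFun (congrArg (fun z => z.2.1) h) i
  have h2 : ∀ i, p i * (s ^ 2 + psi V p i * phi V q i) - psi V p i -
      (∑ j, q j - ∑ j, p j) = 0 := fun i => congrFun (congrArg (fun z => z.2.2) h) i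
  have f1 : ∀ i, 0 < phi V q i := fun i => by
    obtain ⟨j, hj⟩ := hpred i
    exact lt_of_lt_of_le (mul_pos hj (hq j)) (le_phi hV (fun i => (hq i).le) i j)
  have f2 : ∀ i, 0 ≤ psi V p i := psi_nonneg hV fun i => (hp i).le
  have hB : ∀ i, 0 < s ^ 2 + psi V p i * phi V q i := fun i => by
    have := f1 i; have := f2 i; positivity
  set δ : ℝ := ∑ j, q j - ∑ j, p j with hδ
  have k1 : ∀ i, q i * psi V p i - p i * phi V q i =
      -δ * ((psi V p i + phi V q i) / (s ^ 2 + psi V p i * phi V q i)) := by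
    intro i
    rw [mul_div_assoc', eq_div_iff (hB i).ne']
    linear_combination psi V p i * h1 i - phi V q i * h2 i
  have k2 : ∑ i, q i * psi V p i = ∑ i, p i * phi V q i := by
    unfold psi phi
    simp_rw [mul_sum]
    rw [sum_comm]
    exact sum_congr rfl fun i _ => sum_congr rfl fun j _ => by ring
  have k4 : δ = 0 := by
    rcases Nat.eq_zero_or_pos n with hn | hn
    · subst hn; simp [hδ]
    have hne : Nonempty (Fin n) := ⟨⟨0, hn⟩⟩
    have h3 : ∑ i, (q i * psi V p i - p i * phi V q i) =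
        ∑ i, -δ * ((psi V p i + phi V q i) / (s ^ 2 + psi V p i * phi V q i)) :=
      sum_congr rfl fun i _ => k1 i
    rw [sum_sub_distrib, k2, ← mul_sum, sub_self] at h3
    have h4 : 0 < ∑ i, (psi V p i + phi V q i) / (s ^ 2 + psi V p i * phi V q i) :=
      sum_pos (fun i _ => div_pos (by linarith [f1 i, f2 i]) (hB i)) univ_nonempty
    have h5 : δ * ∑ i, (psi V p i + phi V q i) / (s ^ 2 + psi V p i * phi V q i) = 0 := by
      linarith
    rcases mul_eq_zero.1 h5 with h6 | h6
    · exact h6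
    · linarith
  refine ⟨fun i => (hq i).le, fun i => (hp i).le, fun i => ?_, fun i => ?_, ?_⟩
  · have := h1 i
    rw [k4] at this
    simp only [add_zero] at this ⊢
    linarith
  · have := h2 i
    rw [k4] at this
    simp only [add_zero] at this ⊢
    linarith
  · linarith

/-- the distribution function attached to a solution -/
noncomputable def Fval (V : Matrix (Fin n) (Fin n) ℝ) (x : (Fin n → ℝ) × (Fin n → ℝ)) : ℝ :=
  1 - 1 / n * ∑ i, x.1 i * psi V x.2 i

theorem contDiff_Fval (V : Matrix (Fin n) (Fin n) ℝ) : ContDiff ℝ ω (Fval V) := by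
  unfold Fval psi
  fun_prop

theorem analyticAt_F (hn : 0 < n) {V : Matrix (Fin n) (Fin n) ℝ} (hV : ∀ i j, 0 ≤ V i j)
    (hI : Irr V) {x : ℝ → (Fin n → ℝ) × (Fin n → ℝ)}
    (hx : ∀ s, 0 < s → Sys V s 0 (x s).1 (x s).2)
    (hx' : ∀ s, 0 < s → ENNReal.ofReal (s ^ 2) < spectralRadius ℂ (cx V) →
      (∀ i, 0 < (x s).1 i) ∧ ∀ i, 0 < (x s).2 i) {s : ℝ} (hs : 0 < s)
    (hρ : ENNReal.ofReal (s ^ 2) < spectralRadius ℂ (cx V)) :
    AnalyticAt ℝ (fun s => Fval V (x s)) s := by
  have hne : Nonempty (Fin n) := ⟨⟨0, hn⟩⟩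
  have hS := hx s hs
  obtain ⟨hq, hp⟩ := hx' s hs hρ
  set a : ℝ × ((Fin n → ℝ) × (Fin n → ℝ)) := (s, x s) with ha
  have hcd : ContDiffAt ℝ ω (HH V) a := (contDiff_HH V).contDiffAt
  have hinj : Function.Injective (fderiv ℝ (HH V) a) := fderiv_inj hV hI hs hS hq hp
  let L : (ℝ × ((Fin n → ℝ) × (Fin n → ℝ))) ≃L[ℝ] (ℝ × ((Fin n → ℝ) × (Fin n → ℝ))) :=
    (LinearEquiv.ofInjectiveEndo (fderiv ℝ (HH V) a : _ →ₗ[ℝ] _) hinj).toContinuousLinearEquiv
  have hL : (L : _ →L[ℝ] _) = fderiv ℝ (HH V) a := by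
    ext z <;> rfl
  have hd : HasFDerivAt (HH V) (L : _ →L[ℝ] _) a := by
    rw [hL]
    exact ((contDiff_HH V).differentiable (by simp) _).hasFDerivAt
  have hHa : HH V a = (s, 0) := by
    refine Prod.ext rfl (Prod.ext (funext fun i => ?_) (funext fun i => ?_))
    · have h1 := hS.e1 i
      have h2 := hS.sum
      simp only [add_zero] at h1
      simp only [HH, ha, Prod.fst_zero, Pi.zero_apply]
      linarith
    · have h1 := hS.e2 i
      have h2 := hS.sum
      simp only [add_zero] at h1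
      simp only [HH, ha, Prod.snd_zero, Pi.zero_apply]
      linarith
  have hω : (ω : WithTop ℕ∞) ≠ 0 := by simp
  set g := hcd.localInverse hd hω with hg
  have hgcd : ContDiffAt ℝ ω g (s, 0) := by
    have := hcd.to_localInverse hd hω
    rwa [hHa] at this
  have hga : g (s, 0) = a := by
    have := hcd.localInverse_apply_image hd hω
    rwa [hHa] at this
  have hright : ∀ᶠ y in 𝓝 (s, (0 : (Fin n → ℝ) × (Fin n → ℝ))), HH V (g y) = y := by
    have := (hcd.hasStrictFDerivAt' hd hω).eventually_right_inverse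
    rwa [hHa] at this
  have hι : ContDiffAt ℝ ω (fun τ : ℝ => (τ, (0 : (Fin n → ℝ) × (Fin n → ℝ)))) s := by fun_prop
  have hgι : ContDiffAt ℝ ω (fun τ : ℝ => g (τ, 0)) s := hgcd.comp s hι
  have hFg : ContDiffAt ℝ ω (fun τ : ℝ => Fval V (g (τ, 0)).2) s :=
    (contDiff_Fval V).contDiffAt.comp s (contDiffAt_snd.comp s hgι)
  have hFa : AnalyticAt ℝ (fun τ : ℝ => Fval V (g (τ, 0)).2) s := hFg.analyticAt
  refine hFa.congr ?_
  -- eventually the two functions agree
  have e1 : ∀ᶠ τ : ℝ in 𝓝 s, HH V (g (τ, 0)) = (τ, 0) := hι.continuousAt.eventually hright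
  have hcont : ContinuousAt (fun τ : ℝ => g (τ, 0)) s := hgι.continuousAt
  have e2 : ∀ᶠ τ : ℝ in 𝓝 s, ∀ i, 0 < (g (τ, 0)).2.1 i := by
    rw [eventually_all]
    intro i
    have hc : ContinuousAt (fun τ : ℝ => (g (τ, 0)).2.1 i) s :=
      ((continuous_apply i).comp (continuous_fst.comp continuous_snd)).continuousAt.comp hcont
    apply hc.eventually (lt_mem_nhds _)
    simp only [hga]
    exact hq i
  have e3 : ∀ᶠ τ : ℝ in 𝓝 s, ∀ i, 0 < (g (τ, 0)).2.2 i := by
    rw [eventually_all]
    intro i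
    have hc : ContinuousAt (fun τ : ℝ => (g (τ, 0)).2.2 i) s :=
      ((continuous_apply i).comp (continuous_snd.comp continuous_snd)).continuousAt.comp hcont
    apply hc.eventually (lt_mem_nhds _)
    simp only [hga]
    exact hp i
  have hpred : ∀ i, ∃ j, 0 < V j i := by
    intro i
    by_contra hcon
    push Not at hcon
    have h1 : phi V (x s).1 i ≤ 0 := sum_nonpos fun k _ =>
      mul_nonpos_of_nonpos_of_nonneg (hcon k) (hq k).le
    have h2 := hS.e1 i
    have h3 : 0 < (x s).1 i * (s ^ 2 + (psi V (x s).2 i + 0) * (phi V (x s).1 i + 0)) :=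
      mul_pos (hq i) (Sys.B_pos hV hs le_rfl hS i)
    linarith
  filter_upwards [e1, e2, e3, lt_mem_nhds hs] with τ h1 h2 h3 h4
  have h5 : (g (τ, 0)).1 = τ := congrArg Prod.fst h1
  have h6 : Sys V τ 0 (g (τ, 0)).2.1 (g (τ, 0)).2.2 := by
    refine sys_of_zero hV hpred h4 h2 h3 ?_
    have e : (τ, ((g (τ, 0)).2.1, (g (τ, 0)).2.2)) = g (τ, 0) := by
      rw [Prod.mk.eta]
      exact Prod.ext h5.symm rfl
    rw [e]
    exact h1
  have h7 := lt_of_sol hn hV h4 h6 h2 h3
  obtain ⟨h8, h9⟩ := hx' τ h4 h7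
  obtain ⟨h10, h11⟩ := Sys.unique hV hI h4 h6 (hx τ h4) h2 h3 h8 h9
  congr 1
  exact Prod.ext h10 h11

end Pool.Agent.Hq78.ME
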