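import Mathlib

set_option autoImplicit false

open Finset

namespace Pool.Agent.Hq78.ME

variable {n : ℕ}

/-- `(Vᵀ q)_i` -/
def phi (V : Matrix (Fin n) (Fin n) ℝ) (q : Fin n → ℝ) (i : Fin n) : ℝ := ∑ j, V j i * q j

/-- `(V q)_i` -/
def psi (V : Matrix (Fin n) (Fin n) ℝ) (q : Fin n → ℝ) (i : Fin n) : ℝ := ∑ j, V i j * q j

/-- The regularised system with parameter `t`. -/
structure Sys (V : Matrix (Fin n) (Fin n) ℝ) (s t : ℝ) (q p : Fin n → ℝ) : Prop where
  q0 : ∀ i, 0 ≤ q i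
  p0 : ∀ i, 0 ≤ p i
  e1 : ∀ i, q i * (s ^ 2 + (psi V p i + t) * (phi V q i + t)) = phi V q i + t
  e2 : ∀ i, p i * (s ^ 2 + (psi V p i + t) * (phi V q i + t)) = psi V p i + t
  sum : ∑ i, q i = ∑ i, p i

/-- Irreducibility. -/
def Irr (V : Matrix (Fin n) (Fin n) ℝ) : Prop :=
  ∀ i j, Relation.ReflTransGen (fun a b => 0 < V a b) i j

theorem exists_cross {r : Fin n → Fin n → Prop} {S : Set (Fin n)} {a b : Fin n}
    (h : Relation.ReflTransGen r a b) (ha : a ∈ S) (hb : b ∉ S) :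
    ∃ i j, i ∈ S ∧ j ∉ S ∧ r i j := by
  induction h with
  | refl => exact absurd ha hb
  | @tail c d hac hcd ih =>
    by_cases hc : c ∈ S
    · exact ⟨c, d, hc, hb, hcd⟩
    · exact ih hc

section
variable {V : Matrix (Fin n) (Fin n) ℝ} (hV : ∀ i j, 0 ≤ V i j)
include hV

theorem phi_nonneg {q : Fin n → ℝ} (hq : ∀ i, 0 ≤ q i) (i : Fin n) : 0 ≤ phi V q i :=
  sum_nonneg fun j _ => mul_nonneg (hV j i) (hq j)

theorem psi_nonneg {q : Fin n → ℝ} (hq : ∀ i, 0 ≤ q i) (i : Fin n) : 0 ≤ psi V q i :=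
  sum_nonneg fun j _ => mul_nonneg (hV i j) (hq j)

theorem le_phi {q : Fin n → ℝ} (hq : ∀ i, 0 ≤ q i) (i j : Fin n) : V j i * q j ≤ phi V q i :=
  single_le_sum (f := fun j => V j i * q j) (fun j _ => mul_nonneg (hV j i) (hq j)) (mem_univ j)

theorem le_psi {q : Fin n → ℝ} (hq : ∀ i, 0 ≤ q i) (i j : Fin n) : V i j * q j ≤ psi V q i :=
  single_le_sum (f := fun j => V i j * q j) (fun j _ => mul_nonneg (hV i j) (hq j)) (mem_univ j)

theorem phi_mono {q q' : Fin n → ℝ} (h : ∀ i, q i ≤ q' i) (i : Fin n) : phi V q i ≤ phi V q' i :=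
  sum_le_sum fun j _ => mul_le_mul_of_nonneg_left (h j) (hV j i)

theorem psi_mono {q q' : Fin n → ℝ} (h : ∀ i, q i ≤ q' i) (i : Fin n) : psi V q i ≤ psi V q' i :=
  sum_le_sum fun j _ => mul_le_mul_of_nonneg_left (h j) (hV i j)

namespace Sys

variable {s t : ℝ} {q p : Fin n → ℝ} (hs : 0 < s) (ht : 0 ≤ t) (h : Sys V s t q p)
include hs ht h

theorem B_pos (i : Fin n) : 0 < s ^ 2 + (psi V p i + t) * (phi V q i + t) := by
  have h1 := psi_nonneg hV h.p0 i
  have h2 := phi_nonneg hV h.q0 i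
  positivity

theorem flow (i : Fin n) : q i * (psi V p i + t) = p i * (phi V q i + t) := by
  have hB := B_pos hV hs ht h i
  have h1 := h.e1 i
  have h2 := h.e2 i
  apply mul_right_cancel₀ hB.ne'
  calc q i * (psi V p i + t) * (s ^ 2 + (psi V p i + t) * (phi V q i + t))
      = (q i * (s ^ 2 + (psi V p i + t) * (phi V q i + t))) * (psi V p i + t) := by ring
    _ = (p i * (s ^ 2 + (psi V p i + t) * (phi V q i + t))) * (phi V q i + t) := by
        rw [h1, h2]; ring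
    _ = _ := by ring

/-- `s² q ≤ φ + t` -/
theorem s2q_le (i : Fin n) : s ^ 2 * q i ≤ phi V q i + t := by
  have h1 := h.e1 i
  have h2 := psi_nonneg hV h.p0 i
  have h3 := phi_nonneg hV h.q0 i
  have h4 := h.q0 i
  have : 0 ≤ q i * ((psi V p i + t) * (phi V q i + t)) := by positivity
  nlinarith

theorem s2p_le (i : Fin n) : s ^ 2 * p i ≤ psi V p i + t := by
  have h1 := h.e2 i
  have h2 := psi_nonneg hV h.p0 i
  have h3 := phi_nonneg hV h.q0 i
  have h4 := h.p0 i
  have : 0 ≤ p i * ((psi V p i + t) * (phi V q i + t)) := by positivity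
  nlinarith

/-- `(1 - q (ψ + t)) B = s²` -/
theorem one_sub (i : Fin n) : (1 - q i * (psi V p i + t)) *
    (s ^ 2 + (psi V p i + t) * (phi V q i + t)) = s ^ 2 := by
  have h1 := h.e1 i
  calc (1 - q i * (psi V p i + t)) * (s ^ 2 + (psi V p i + t) * (phi V q i + t))
      = (s ^ 2 + (psi V p i + t) * (phi V q i + t)) -
        (q i * (s ^ 2 + (psi V p i + t) * (phi V q i + t))) * (psi V p i + t) := by ring
    _ = _ := by rw [h1]; ring

theorem r_lt (i : Fin n) : q i * (psi V p i + t) < 1 := by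
  have hB := B_pos hV hs ht h i
  have h1 := one_sub hV hs ht h i
  have : 0 < s ^ 2 := by positivity
  by_contra hcon
  push Not at hcon
  nlinarith

theorem r_lt' (i : Fin n) : p i * (phi V q i + t) < 1 := by
  rw [← flow hV hs ht h i]; exact r_lt hV hs ht h i

/-- `q_i > 0` as soon as `φ_i + t > 0`. -/
theorem q_pos_of (i : Fin n) (h1 : 0 < phi V q i + t) : 0 < q i := by
  have hB := B_pos hV hs ht h i
  have h2 := h.e1 i
  have : 0 < q i * (s ^ 2 + (psi V p i + t) * (phi V q i + t)) := by rw [h2]; exact h1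
  exact pos_of_mul_pos_left this hB.le

theorem p_pos_of (i : Fin n) (h1 : 0 < psi V p i + t) : 0 < p i := by
  have hB := B_pos hV hs ht h i
  have h2 := h.e2 i
  have : 0 < p i * (s ^ 2 + (psi V p i + t) * (phi V q i + t)) := by rw [h2]; exact h1
  exact pos_of_mul_pos_left this hB.le

theorem q_pos_all (hI : Irr V) {j : Fin n} (hj : 0 < q j) : ∀ i, 0 < q i := by
  intro b
  by_contra hb
  obtain ⟨i, k, hi, hk, hik⟩ := exists_cross (S := {i | 0 < q i}) (hI j b) hj hb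
  apply hk
  apply q_pos_of hV hs ht h
  have := le_phi hV h.q0 k i
  have h2 : 0 < V i k * q i := mul_pos hik hi
  linarith

theorem p_pos_all (hI : Irr V) {j : Fin n} (hj : 0 < p j) : ∀ i, 0 < p i := by
  intro b
  by_contra hb
  obtain ⟨i, k, hi, hk, hik⟩ := exists_cross (S := {i | ¬ 0 < p i}) (hI b j) hb (not_not.2 hj)
  apply hi
  apply p_pos_of hV hs ht h
  have := le_psi hV h.p0 i k
  have h2 : 0 < V i k * p k := mul_pos hik (not_not.1 hk)
  linarith

/-- nonzero solutions are positive -/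
theorem pos_of_ne (hI : Irr V) (hne : q ≠ 0 ∨ p ≠ 0) : (∀ i, 0 < q i) ∧ ∀ i, 0 < p i := by
  have key : (∃ j, 0 < q j) ∧ ∃ j, 0 < p j := by
    rcases hne with hne | hne
    · obtain ⟨j, hj⟩ := Function.ne_iff.1 hne
      have hj' : 0 < q j := lt_of_le_of_ne (h.q0 j) (Ne.symm hj)
      refine ⟨⟨j, hj'⟩, ?_⟩
      have : 0 < ∑ i, p i := by
        rw [← h.sum]; exact sum_pos' (fun i _ => h.q0 i) ⟨j, mem_univ j, hj'⟩
      by_contra hcon
      push Not at hcon
      exact absurd this (not_lt.2 (sum_nonpos fun i _ => hcon i))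
    · obtain ⟨j, hj⟩ := Function.ne_iff.1 hne
      have hj' : 0 < p j := lt_of_le_of_ne (h.p0 j) (Ne.symm hj)
      refine ⟨?_, ⟨j, hj'⟩⟩
      have : 0 < ∑ i, q i := by
        rw [h.sum]; exact sum_pos' (fun i _ => h.p0 i) ⟨j, mem_univ j, hj'⟩
      by_contra hcon
      push Not at hcon
      exact absurd this (not_lt.2 (sum_nonpos fun i _ => hcon i))
  obtain ⟨⟨j, hj⟩, ⟨k, hk⟩⟩ := key
  exact ⟨q_pos_all hV hs ht h hI hj, p_pos_all hV hs ht h hI hk⟩

end Sys

end

end Pool.Agent.Hq78.ME
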