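import Pool.Agent.Hq78.ME.Uniq

set_option autoImplicit false
set_option linter.unusedSectionVars false

open Finset

namespace Pool.Agent.Hq78.ME

variable {n : ℕ}

open Classical in
/-- flow out of `S` equals flow into `S` up to the cemetery terms -/
theorem Sys.balance {V : Matrix (Fin n) (Fin n) ℝ} (hV : ∀ i j, 0 ≤ V i j)
    {s t : ℝ} (hs : 0 < s) (ht : 0 ≤ t) {q p : Fin n → ℝ} (h : Sys V s t q p)
    (S : Finset (Fin n)) :
    ∑ i ∈ S, ∑ j ∈ Sᶜ, V i j * q i * p j + t * ∑ i ∈ S, q i =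
      ∑ i ∈ S, ∑ j ∈ Sᶜ, V j i * q j * p i + t * ∑ i ∈ S, p i := by
  have h1 : ∑ i ∈ S, q i * (psi V p i + t) = ∑ i ∈ S, p i * (phi V q i + t) :=
    sum_congr rfl fun i _ => Sys.flow hV hs ht h i
  have h2 : ∑ i ∈ S, q i * (psi V p i + t) =
      ∑ i ∈ S, ∑ j ∈ S, V i j * q i * p j + ∑ i ∈ S, ∑ j ∈ Sᶜ, V i j * q i * p j +
        t * ∑ i ∈ S, q i := by
    rw [← sum_add_distrib, mul_sum, ← sum_add_distrib]
    refine sum_congr rfl fun i _ => ?_
    rw [sum_add_sum_compl, psi, mul_add, mul_sum]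
    congr 1
    · exact sum_congr rfl fun j _ => by ring
    · ring
  have h3 : ∑ i ∈ S, p i * (phi V q i + t) =
      ∑ i ∈ S, ∑ j ∈ S, V j i * q j * p i + ∑ i ∈ S, ∑ j ∈ Sᶜ, V j i * q j * p i +
        t * ∑ i ∈ S, p i := by
    rw [← sum_add_distrib, mul_sum, ← sum_add_distrib]
    refine sum_congr rfl fun i _ => ?_
    rw [sum_add_sum_compl, phi, mul_add, mul_sum]
    congr 1
    · exact sum_congr rfl fun j _ => by ring
    · ring
  have h4 : ∑ i ∈ S, ∑ j ∈ S, V i j * q i * p j = ∑ i ∈ S, ∑ j ∈ S, V j i * q j * p i :=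
    sum_comm
  linarith

theorem gap {V : Matrix (Fin n) (Fin n) ℝ} (hV : ∀ i j, 0 ≤ V i j) (hI : Irr V)
    {s0 s1 v w : ℝ} (hs0 : 0 < s0) (hv : 0 < v) (hvV : ∀ i j, 0 < V i j → v ≤ V i j)
    (hw0 : 0 ≤ w) (hw : ∀ i j, V i j ≤ w) :
    ∃ K : ℝ, 1 < K ∧ ∀ (s t y : ℝ) (q p : Fin n → ℝ), s0 ≤ s → s ≤ s1 → 0 ≤ t → t ≤ 1 →
      Sys V s t q p → 1 ≤ y → (∃ i, K * y ≤ q i) → (∃ i, q i ≤ y) →
      ∃ i, y < q i ∧ q i < K * y := by
  classical
  set C1 : ℝ := ((n : ℝ) ^ 2 * w + n) / s0 ^ 2 with hC1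
  set C2 : ℝ := C1 + C1 * (n * w + 1) / v with hC2
  have hC10 : 0 ≤ C1 := by positivity
  have hC20 : 0 ≤ C2 := by positivity
  refine ⟨2 + 4 * C2 + 2 * s1 ^ 2 / v, ?_, ?_⟩
  · have : 0 ≤ 2 * s1 ^ 2 / v := by positivity
    linarith
  intro s t y q p hs hs' ht ht1 h hy ⟨a, ha⟩ ⟨b, hb⟩
  set K : ℝ := 2 + 4 * C2 + 2 * s1 ^ 2 / v with hK
  have hK2 : 2 ≤ K := by
    have : 0 ≤ 2 * s1 ^ 2 / v := by positivity
    linarith
  have hKv : 2 * s1 ^ 2 ≤ v * K := by
    have e : v * K = v * (2 + 4 * C2) + 2 * s1 ^ 2 := by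
      rw [hK]; field_simp
    rw [e]
    have : 0 ≤ v * (2 + 4 * C2) := by positivity
    linarith
  have hKC : 4 * C2 ≤ K := by
    have : 0 ≤ 2 * s1 ^ 2 / v := by positivity
    linarith
  have hs00 : 0 < s := lt_of_lt_of_le hs0 hs
  have hK0 : 0 < K := by linarith
  have hy0 : 0 < y := by linarith
  by_contra hcon
  push Not at hcon
  -- the set of large indices
  set S : Finset (Fin n) := univ.filter (fun i => K * y ≤ q i) with hS
  have memS : ∀ i, i ∈ S ↔ K * y ≤ q i := fun i => by rw [hS]; simp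
  have memSc : ∀ i, i ∈ Sᶜ → q i ≤ y := fun i hi => by
    rw [mem_compl, memS] at hi
    by_contra h1
    push Not at h1
    exact hi (hcon i h1)
  -- `p` is small on `S`
  have hpS : ∀ i ∈ S, p i ≤ 1 / (s0 ^ 2 * (K * y)) := by
    intro i hi
    have h1 := Sys.r_lt' hV hs00 ht h i
    have h2 := Sys.s2q_le hV hs00 ht h i
    have h3 := (memS i).1 hi
    have h4 : s0 ^ 2 ≤ s ^ 2 := by gcongr
    have h5 : s0 ^ 2 * (K * y) ≤ phi V q i + t :=
      calc s0 ^ 2 * (K * y) ≤ s ^ 2 * q i := by gcongr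
        _ ≤ _ := h2
    rw [le_div_iff₀ (by positivity)]
    calc p i * (s0 ^ 2 * (K * y)) ≤ p i * (phi V q i + t) :=
          mul_le_mul_of_nonneg_left h5 (h.p0 i)
      _ ≤ 1 := h1.le
  have hIn : ∑ i ∈ S, ∑ j ∈ Sᶜ, V j i * q j * p i ≤ (n : ℝ) ^ 2 * w / (s0 ^ 2 * K) := by
    have h1 : ∀ i ∈ S, ∀ j ∈ Sᶜ, V j i * q j * p i ≤ w / (s0 ^ 2 * K) := by
      intro i hi j hj
      calc V j i * q j * p i ≤ w * y * (1 / (s0 ^ 2 * (K * y))) := by
            apply mul_le_mul _ (hpS i hi) (h.p0 i) (by positivity)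
            exact mul_le_mul (hw j i) (memSc j hj) (h.q0 j) hw0
        _ = w / (s0 ^ 2 * K) := by field_simp
    have h0 : 0 ≤ w / (s0 ^ 2 * K) := by positivity
    calc ∑ i ∈ S, ∑ j ∈ Sᶜ, V j i * q j * p i
        ≤ ∑ i ∈ S, ∑ j ∈ Sᶜ, w / (s0 ^ 2 * K) :=
          sum_le_sum fun i hi => sum_le_sum fun j hj => h1 i hi j hj
      _ ≤ ∑ i : Fin n, ∑ j : Fin n, w / (s0 ^ 2 * K) := by
          refine (sum_le_sum_of_subset_of_nonneg (subset_univ S) fun i _ _ =>
            sum_nonneg fun _ _ => h0).trans ?_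
          exact sum_le_sum fun i _ => sum_le_sum_of_subset_of_nonneg (subset_univ _)
            fun _ _ _ => h0
      _ = (n : ℝ) ^ 2 * w / (s0 ^ 2 * K) := by simp; ring
  have hpsum : ∑ i ∈ S, p i ≤ n / (s0 ^ 2 * K) := by
    have h1 : ∀ i ∈ S, p i ≤ 1 / (s0 ^ 2 * K) := fun i hi => by
      refine (hpS i hi).trans ?_
      apply one_div_le_one_div_of_le (by positivity)
      have : K ≤ K * y := by nlinarith
      nlinarith [sq_nonneg s0]
    calc ∑ i ∈ S, p i ≤ ∑ i ∈ S, 1 / (s0 ^ 2 * K) := sum_le_sum h1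
      _ ≤ ∑ i : Fin n, 1 / (s0 ^ 2 * K) :=
          sum_le_sum_of_subset_of_nonneg (subset_univ S) fun _ _ _ => by positivity
      _ = n / (s0 ^ 2 * K) := by simp; ring
  have hOut : ∑ i ∈ S, ∑ j ∈ Sᶜ, V i j * q i * p j ≤ C1 / K := by
    have h1 := Sys.balance hV hs00 ht h S
    have h2 : 0 ≤ t * ∑ i ∈ S, q i := mul_nonneg ht (sum_nonneg fun i _ => h.q0 i)
    have h3 : t * ∑ i ∈ S, p i ≤ n / (s0 ^ 2 * K) := by
      have h0 : 0 ≤ ∑ i ∈ S, p i := sum_nonneg fun i _ => h.p0 i
      calc t * ∑ i ∈ S, p i ≤ 1 * ∑ i ∈ S, p i := by gcongr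
        _ ≤ _ := by rw [one_mul]; exact hpsum
    have e : C1 / K = (n : ℝ) ^ 2 * w / (s0 ^ 2 * K) + n / (s0 ^ 2 * K) := by
      rw [hC1]; field_simp
    rw [e]; linarith
  -- an edge from `S` to the complement
  have haS : a ∈ S := (memS a).2 ha
  have hbS : b ∉ S := by
    rw [memS]; push Not
    calc q b ≤ y := hb
      _ < K * y := by nlinarith
  obtain ⟨i, j, hi, hj, hij⟩ := exists_cross (S := (S : Set (Fin n))) (hI a b) haS hbS
  have hi' : i ∈ S := hi
  have hj' : j ∈ Sᶜ := by rw [mem_compl]; exact hj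
  have hVij := hvV i j hij
  have hqi := (memS i).1 hi'
  have hqj := memSc j hj'
  have hqi0 : 0 < q i := lt_of_lt_of_le (by positivity) hqi
  -- `p j` is tiny
  have hterm : V i j * q i * p j ≤ C1 / K := by
    refine le_trans ?_ hOut
    have g : ∀ i j, 0 ≤ V i j * q i * p j := fun i j =>
      mul_nonneg (mul_nonneg (hV i j) (h.q0 i)) (h.p0 j)
    refine le_trans ?_ (single_le_sum (f := fun i => ∑ j ∈ Sᶜ, V i j * q i * p j)
      (fun i _ => sum_nonneg fun j _ => g i j) hi')
    exact single_le_sum (f := fun j => V i j * q i * p j) (fun j _ => g i j) hj'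
  have hpj : p j ≤ C1 / (v * K * (K * y)) := by
    rw [le_div_iff₀ (by positivity)]
    calc p j * (v * K * (K * y)) = (v * (K * y) * p j) * K := by ring
      _ ≤ (V i j * q i * p j) * K := by
          have := h.p0 j
          gcongr
      _ ≤ (C1 / K) * K := by gcongr
      _ = C1 := by field_simp
  -- `r_j` is at least one half
  have hB := Sys.B_pos hV hs00 ht h j
  have hr1 : 1 / 2 ≤ 1 - (1 - q j * (psi V p j + t)) := by
    have h1 := Sys.one_sub hV hs00 ht h j
    have h2 := h.e1 j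
    have h3 := le_phi hV h.q0 j i
    set B := s ^ 2 + (psi V p j + t) * (phi V q j + t) with hBdef
    have h4 : v * K * y ≤ q j * B := by
      rw [h2]
      calc v * K * y = v * (K * y) := by ring
        _ ≤ V i j * q i := by gcongr
        _ ≤ phi V q j := h3
        _ ≤ _ := by linarith
    have h5 : v * K ≤ B := by
      have : v * K * y ≤ B * y := by
        calc v * K * y ≤ q j * B := h4
          _ ≤ y * B := by gcongr
          _ = B * y := by ring
      exact le_of_mul_le_mul_right this hy0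
    have h6 : (1 - q j * (psi V p j + t)) ≤ 1 / 2 := by
      by_contra hc
      push Not at hc
      have h7 : 1 / 2 * B < (1 - q j * (psi V p j + t)) * B := mul_lt_mul_of_pos_right hc hB
      rw [h1] at h7
      have h8 : s ^ 2 ≤ s1 ^ 2 := by gcongr
      linarith
    linarith
  have hr2 : p j * (phi V q j + t) ≤ 1 / 4 := by
    have h1 : phi V q j = ∑ k ∈ S, V k j * q k + ∑ k ∈ Sᶜ, V k j * q k := by
      rw [sum_add_sum_compl]; rfl
    have h2 : p j * ∑ k ∈ S, V k j * q k ≤ C1 / K := by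
      refine le_trans ?_ hOut
      rw [mul_sum]
      refine sum_le_sum fun k _ => ?_
      have g : ∀ i j, 0 ≤ V i j * q i * p j := fun i j =>
        mul_nonneg (mul_nonneg (hV i j) (h.q0 i)) (h.p0 j)
      refine le_trans (le_of_eq ?_) (single_le_sum (f := fun j => V k j * q k * p j)
        (fun j _ => g k j) hj')
      ring
    have h3 : ∑ k ∈ Sᶜ, V k j * q k ≤ n * (w * y) := by
      calc ∑ k ∈ Sᶜ, V k j * q k ≤ ∑ k ∈ Sᶜ, w * y := by
            refine sum_le_sum fun k hk => ?_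
            exact mul_le_mul (hw k j) (memSc k hk) (h.q0 k) hw0
        _ ≤ ∑ k : Fin n, w * y :=
            sum_le_sum_of_subset_of_nonneg (subset_univ _) fun _ _ _ => by positivity
        _ = n * (w * y) := by simp
    have h4 : p j * (∑ k ∈ Sᶜ, V k j * q k + t) ≤ C1 * (n * w + 1) / v / K := by
      calc p j * (∑ k ∈ Sᶜ, V k j * q k + t)
          ≤ C1 / (v * K * (K * y)) * (n * (w * y) + 1) := by
            apply mul_le_mul hpj (by linarith) _ (by positivity)
            have : 0 ≤ ∑ k ∈ Sᶜ, V k j * q k :=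
              sum_nonneg fun k _ => mul_nonneg (hV k j) (h.q0 k)
            linarith
        _ ≤ C1 / (v * K * (K * y)) * ((n * w + 1) * y) := by
            gcongr
            nlinarith
        _ = C1 * (n * w + 1) / v / K / K := by field_simp
        _ ≤ C1 * (n * w + 1) / v / K := by
            apply div_le_self (by positivity) (by linarith)
    have h5 : p j * (phi V q j + t) ≤ C2 / K := by
      rw [h1, hC2]
      calc p j * (∑ k ∈ S, V k j * q k + ∑ k ∈ Sᶜ, V k j * q k + t)
          = p j * ∑ k ∈ S, V k j * q k + p j * (∑ k ∈ Sᶜ, V k j * q k + t) := by ring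
        _ ≤ C1 / K + C1 * (n * w + 1) / v / K := add_le_add h2 h4
        _ = _ := by ring
    refine h5.trans ?_
    rw [div_le_iff₀ hK0]
    linarith
  have hr3 := Sys.flow hV hs00 ht h j
  linarith

/-- Uniform bound for the solutions. -/
theorem bound {V : Matrix (Fin n) (Fin n) ℝ} (hV : ∀ i j, 0 ≤ V i j) (hI : Irr V)
    {s0 : ℝ} (hs0 : 0 < s0) (s1 : ℝ) :
    ∃ C : ℝ, ∀ (s t : ℝ) (q p : Fin n → ℝ), s0 ≤ s → s ≤ s1 → 0 ≤ t → t ≤ 1 →
      Sys V s t q p → ∀ i, q i ≤ C ∧ p i ≤ C := by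
  classical
  rcases Nat.eq_zero_or_pos n with hn | hn
  · subst hn
    exact ⟨0, fun _ _ _ _ _ _ _ _ _ i => i.elim0⟩
  have hne : Nonempty (Fin n) := ⟨⟨0, hn⟩⟩
  -- constants
  obtain ⟨v, hv, hvV⟩ : ∃ v : ℝ, 0 < v ∧ ∀ i j, 0 < V i j → v ≤ V i j := by
    obtain ⟨x, hx⟩ := Finite.exists_min (fun x : Fin n × Fin n => if 0 < V x.1 x.2 then V x.1 x.2 else 1)
    refine ⟨if 0 < V x.1 x.2 then V x.1 x.2 else 1, ?_, fun i j hij => ?_⟩
    · split_ifs with h1
      · exact h1
      · exact one_pos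
    · have := hx (i, j)
      simpa [hij] using this
  obtain ⟨w, hw0, hw⟩ : ∃ w : ℝ, 0 ≤ w ∧ ∀ i j, V i j ≤ w := by
    obtain ⟨x, hx⟩ := Finite.exists_max (fun x : Fin n × Fin n => V x.1 x.2)
    exact ⟨V x.1 x.2, hV _ _, fun i j => hx (i, j)⟩
  obtain ⟨K, hK, hgap⟩ := gap (s1 := s1) hV hI hs0 hv hvV hw0 hw
  have hK0 : 0 < K := by linarith
  have hKn : 1 ≤ K ^ n := one_le_pow₀ hK.le
  set C0 : ℝ := K ^ n + n * K ^ n / s0 ^ 2 with hC0
  have hC0n : 0 ≤ C0 := by positivity
  refine ⟨n * C0, fun s t q p hs hs' ht ht1 h => ?_⟩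
  have hs00 : 0 < s := lt_of_lt_of_le hs0 hs
  obtain ⟨m, hm⟩ := Finite.exists_max q
  -- the maximum of `q` is at most `C0`
  have hmax : q m ≤ C0 := by
    by_contra hcon
    push Not at hcon
    have hMK : K ^ n ≤ q m := by
      have : 0 ≤ n * K ^ n / s0 ^ 2 := by positivity
      linarith
    have hM0 : 0 < q m := lt_of_lt_of_le (by positivity) hMK
    -- counting
    have count : ∀ c : ℕ, c < n → c + 1 ≤ (univ.filter (fun i => q m / K ^ c ≤ q i)).card := by
      intro c
      induction c with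
      | zero =>
        intro _
        have : m ∈ univ.filter (fun i => q m / K ^ 0 ≤ q i) := by simp
        exact card_pos.2 ⟨m, this⟩
      | succ c ih =>
        intro hc
        have ih' := ih (by omega)
        by_cases hall : ∃ i, q i ≤ q m / K ^ (c + 1)
        · have hy1 : 1 ≤ q m / K ^ (c + 1) := by
            rw [le_div_iff₀ (by positivity), one_mul]
            exact le_trans (pow_le_pow_right₀ hK.le (by omega)) hMK
          obtain ⟨i, hi1, hi2⟩ := hgap s t (q m / K ^ (c + 1)) q p hs hs' ht ht1 h hy1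
            ⟨m, by
              rw [pow_succ]
              rw [show K * (q m / (K ^ c * K)) = q m / K ^ c by field_simp]
              exact div_le_self hM0.le (one_le_pow₀ hK.le)⟩ hall
          rw [show K * (q m / K ^ (c + 1)) = q m / K ^ c by rw [pow_succ]; field_simp] at hi2
          have hss : univ.filter (fun i => q m / K ^ c ≤ q i) ⊂
              univ.filter (fun i => q m / K ^ (c + 1) ≤ q i) := by
            refine (ssubset_iff_of_subset ?_).2 ⟨i, ?_, ?_⟩
            · intro k hk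
              simp only [mem_filter, mem_univ, true_and] at hk ⊢
              refine le_trans ?_ hk
              exact div_le_div_of_nonneg_left hM0.le (by positivity)
                (pow_le_pow_right₀ hK.le (by omega))
            · simp only [mem_filter, mem_univ, true_and]; exact hi1.le
            · simp only [mem_filter, mem_univ, true_and]; push Not; exact hi2
          have := card_lt_card hss
          omega
        · push Not at hall
          have : univ.filter (fun i => q m / K ^ (c + 1) ≤ q i) = univ := by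
            ext i; simp [(hall i).le]
          rw [this, card_univ, Fintype.card_fin]
          omega
    have hall : ∀ i, q m / K ^ n ≤ q i := by
      have h1 := count (n - 1) (by omega)
      have h2 : (univ.filter (fun i => q m / K ^ (n - 1) ≤ q i)) = univ := by
        apply eq_of_subset_of_card_le (filter_subset _ _)
        rw [card_univ, Fintype.card_fin]
        omega
      intro i
      have h3 : i ∈ univ.filter (fun i => q m / K ^ (n - 1) ≤ q i) := by rw [h2]; simp
      simp only [mem_filter, mem_univ, true_and] at h3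
      refine le_trans ?_ h3
      exact div_le_div_of_nonneg_left hM0.le (by positivity)
        (pow_le_pow_right₀ hK.le (by omega))
    have hp : ∀ i, p i ≤ K ^ n / (s0 ^ 2 * q m) := by
      intro i
      have h1 := Sys.r_lt' hV hs00 ht h i
      have h2 := Sys.s2q_le hV hs00 ht h i
      have h4 : s0 ^ 2 ≤ s ^ 2 := by gcongr
      have h5 : s0 ^ 2 * (q m / K ^ n) ≤ phi V q i + t :=
        calc s0 ^ 2 * (q m / K ^ n) ≤ s ^ 2 * q i := by
              have := hall i
              gcongr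
          _ ≤ _ := h2
      rw [le_div_iff₀ (by positivity)]
      have h6 : p i * (s0 ^ 2 * (q m / K ^ n)) ≤ 1 :=
        (mul_le_mul_of_nonneg_left h5 (h.p0 i)).trans h1.le
      calc p i * (s0 ^ 2 * q m) = (p i * (s0 ^ 2 * (q m / K ^ n))) * K ^ n := by field_simp
        _ ≤ 1 * K ^ n := by gcongr
        _ = K ^ n := one_mul _
    have h1 : q m ≤ n * (K ^ n / (s0 ^ 2 * q m)) := by
      calc q m ≤ ∑ i, q i := single_le_sum (fun i _ => h.q0 i) (mem_univ m)
        _ = ∑ i, p i := h.sum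
        _ ≤ ∑ _i : Fin n, K ^ n / (s0 ^ 2 * q m) := sum_le_sum fun i _ => hp i
        _ = _ := by simp
    have h2 : q m * q m ≤ n * K ^ n / s0 ^ 2 := by
      calc q m * q m ≤ n * (K ^ n / (s0 ^ 2 * q m)) * q m := by gcongr
        _ = _ := by field_simp
    have h3 : q m ≤ q m * q m := by nlinarith
    have h4 : 0 ≤ K ^ n := by positivity
    linarith
  have hq : ∀ i, q i ≤ C0 := fun i => (hm i).trans hmax
  have hn1 : (1 : ℝ) ≤ n := by exact_mod_cast hn
  have hsum : ∑ i, q i ≤ n * C0 := by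
    calc ∑ i, q i ≤ ∑ _i : Fin n, C0 := sum_le_sum fun i _ => hq i
      _ = _ := by simp
  intro i
  constructor
  · exact (single_le_sum (fun i _ => h.q0 i) (mem_univ i)).trans hsum
  · refine (single_le_sum (fun i _ => h.p0 i) (mem_univ i)).trans ?_
    rw [← h.sum]; exact hsum

end Pool.Agent.Hq78.ME
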