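import Pool.Agent.Hq78.ME.Rho

set_option autoImplicit false
set_option linter.unusedSectionVars false

open Finset Filter Topology

namespace Pool.Agent.Hq78.ME

variable {n : ℕ}

theorem frac_mono {s a b a' b' : ℝ} (hs : 0 < s) (ha : 0 < a) (hb : 0 < b') (h1 : a ≤ a')
    (h2 : b' ≤ b) : a / (s ^ 2 + b * a) ≤ a' / (s ^ 2 + b' * a') := by
  have ha' : 0 < a' := lt_of_lt_of_le ha h1
  have hb' : 0 < b := lt_of_lt_of_le hb h2
  rw [div_le_div_iff₀ (by positivity) (by positivity)]
  have k1 : a * s ^ 2 ≤ a' * s ^ 2 := mul_le_mul_of_nonneg_right h1 (by positivity)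
  have k2 : a * (b' * a') ≤ a' * (b * a) := by
    calc a * (b' * a') = b' * (a * a') := by ring
      _ ≤ b * (a * a') := mul_le_mul_of_nonneg_right h2 (by positivity)
      _ = _ := by ring
  nlinarith

/-- one step of the iteration -/
noncomputable def step (V : Matrix (Fin n) (Fin n) ℝ) (s t : ℝ)
    (x : (Fin n → ℝ) × (Fin n → ℝ)) : (Fin n → ℝ) × (Fin n → ℝ) :=
  (fun i => (phi V x.1 i + t) / (s ^ 2 + (psi V x.2 i + t) * (phi V x.1 i + t)),
   fun i => (psi V x.2 i + t) / (s ^ 2 + (phi V x.1 i + t) * (psi V x.2 i + t)))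

/-- the iteration -/
noncomputable def seq (V : Matrix (Fin n) (Fin n) ℝ) (s t : ℝ) : ℕ → (Fin n → ℝ) × (Fin n → ℝ)
  | 0 => (fun _ => 1 / t, fun _ => 0)
  | k + 1 => step V s t (seq V s t k)

theorem frac_le {s a b t : ℝ} (hs : 0 < s) (ht : 0 < t) (ha : t ≤ a) (hb : t ≤ b) :
    a / (s ^ 2 + b * a) ≤ 1 / t := by
  have ha' : 0 < a := lt_of_lt_of_le ht ha
  have hb' : 0 < b := lt_of_lt_of_le ht hb
  rw [div_le_div_iff₀ (by positivity) ht]
  nlinarith [mul_le_mul_of_nonneg_right hb ha'.le, sq_nonneg s]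

theorem exists_pos_t {V : Matrix (Fin n) (Fin n) ℝ} (hV : ∀ i j, 0 ≤ V i j) {s t : ℝ}
    (hs : 0 < s) (ht : 0 < t) : ∃ q p, Sys V s t q p := by
  set x := seq V s t with hx
  have x1 : ∀ k i, (x (k + 1)).1 i =
      (phi V (x k).1 i + t) / (s ^ 2 + (psi V (x k).2 i + t) * (phi V (x k).1 i + t)) :=
    fun k i => rfl
  have x2 : ∀ k i, (x (k + 1)).2 i =
      (psi V (x k).2 i + t) / (s ^ 2 + (phi V (x k).1 i + t) * (psi V (x k).2 i + t)) :=
    fun k i => rfl
  have nn : ∀ k, (∀ i, 0 ≤ (x k).1 i) ∧ ∀ i, 0 ≤ (x k).2 i := by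
    intro k
    induction k with
    | zero => exact ⟨fun i => by simp [hx, seq]; positivity, fun i => by simp [hx, seq]⟩
    | succ k ih =>
      have h1 : ∀ i, 0 ≤ phi V (x k).1 i := phi_nonneg hV ih.1
      have h2 : ∀ i, 0 ≤ psi V (x k).2 i := psi_nonneg hV ih.2
      refine ⟨fun i => ?_, fun i => ?_⟩
      · rw [x1]; have := h1 i; have := h2 i; positivity
      · rw [x2]; have := h1 i; have := h2 i; positivity
  have mono : ∀ k, (∀ i, (x (k + 1)).1 i ≤ (x k).1 i) ∧ ∀ i, (x k).2 i ≤ (x (k + 1)).2 i := by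
    intro k
    induction k with
    | zero =>
      refine ⟨fun i => ?_, fun i => ?_⟩
      · rw [x1]
        refine (frac_le hs ht ?_ ?_).trans (le_of_eq (by simp [hx, seq]))
        · linarith [phi_nonneg hV (nn 0).1 i]
        · linarith [psi_nonneg hV (nn 0).2 i]
      · have := (nn (0 + 1)).2 i
        simpa [hx, seq] using this
    | succ k ih =>
      refine ⟨fun i => ?_, fun i => ?_⟩
      · rw [x1 (k + 1), x1 k]
        apply frac_mono hs
        · linarith [phi_nonneg hV (nn (k + 1)).1 i]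
        · linarith [psi_nonneg hV (nn k).2 i]
        · linarith [phi_mono hV ih.1 i]
        · linarith [psi_mono hV ih.2 i]
      · rw [x2 (k + 1), x2 k]
        apply frac_mono hs
        · linarith [psi_nonneg hV (nn k).2 i]
        · linarith [phi_nonneg hV (nn (k + 1)).1 i]
        · linarith [psi_mono hV ih.2 i]
        · linarith [phi_mono hV ih.1 i]
  have bd : ∀ k i, (x k).2 i ≤ 1 / t := by
    intro k i
    cases k with
    | zero => simp [hx, seq]; positivity
    | succ k =>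
      rw [x2]
      apply frac_le hs ht
      · linarith [psi_nonneg hV (nn k).2 i]
      · linarith [phi_nonneg hV (nn k).1 i]
  set q : Fin n → ℝ := fun i => ⨅ k, (x k).1 i with hq
  set p : Fin n → ℝ := fun i => ⨆ k, (x k).2 i with hp
  have lq : ∀ i, Tendsto (fun k => (x k).1 i) atTop (𝓝 (q i)) := fun i =>
    tendsto_atTop_ciInf (antitone_nat_of_succ_le fun k => (mono k).1 i)
      ⟨0, by rintro _ ⟨k, rfl⟩; exact (nn k).1 i⟩
  have lp : ∀ i, Tendsto (fun k => (x k).2 i) atTop (𝓝 (p i)) := fun i =>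
    tendsto_atTop_ciSup (monotone_nat_of_le_succ fun k => (mono k).2 i)
      ⟨1 / t, by rintro _ ⟨k, rfl⟩; exact bd k i⟩
  have q0 : ∀ i, 0 ≤ q i := fun i => ge_of_tendsto' (lq i) fun k => (nn k).1 i
  have p0 : ∀ i, 0 ≤ p i := fun i => ge_of_tendsto' (lp i) fun k => (nn k).2 i
  have lphi : ∀ i, Tendsto (fun k => phi V (x k).1 i) atTop (𝓝 (phi V q i)) := fun i =>
    tendsto_finsetSum _ fun j _ => (lq j).const_mul _
  have lpsi : ∀ i, Tendsto (fun k => psi V (x k).2 i) atTop (𝓝 (psi V p i)) := fun i =>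
    tendsto_finsetSum _ fun j _ => (lp j).const_mul _
  have f0 := phi_nonneg hV q0
  have g0 := psi_nonneg hV p0
  have hB : ∀ i, 0 < s ^ 2 + (psi V p i + t) * (phi V q i + t) := fun i => by
    have := f0 i; have := g0 i; positivity
  have E1 : ∀ i, q i = (phi V q i + t) / (s ^ 2 + (psi V p i + t) * (phi V q i + t)) := by
    intro i
    have h1 : Tendsto (fun k => (x (k + 1)).1 i) atTop (𝓝 (q i)) := (lq i).comp (tendsto_add_atTop_nat 1)
    have h2 : Tendsto (fun k => (x (k + 1)).1 i) atTop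
        (𝓝 ((phi V q i + t) / (s ^ 2 + (psi V p i + t) * (phi V q i + t)))) := by
      simp_rw [x1]
      refine Tendsto.div ((lphi i).add_const t) ?_ (hB i).ne'
      exact (((lpsi i).add_const t).mul ((lphi i).add_const t)).const_add _
    exact tendsto_nhds_unique h1 h2
  have E2 : ∀ i, p i = (psi V p i + t) / (s ^ 2 + (psi V p i + t) * (phi V q i + t)) := by
    intro i
    have h1 : Tendsto (fun k => (x (k + 1)).2 i) atTop (𝓝 (p i)) := (lp i).comp (tendsto_add_atTop_nat 1)
    have h2 : Tendsto (fun k => (x (k + 1)).2 i) atTop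
        (𝓝 ((psi V p i + t) / (s ^ 2 + (psi V p i + t) * (phi V q i + t)))) := by
      simp_rw [x2]
      refine Tendsto.div ((lpsi i).add_const t) ?_ (hB i).ne'
      simp_rw [mul_comm (phi V _ i + t) (psi V _ i + t)]
      exact (((lpsi i).add_const t).mul ((lphi i).add_const t)).const_add _
    exact tendsto_nhds_unique h1 h2
  have e1 : ∀ i, q i * (s ^ 2 + (psi V p i + t) * (phi V q i + t)) = phi V q i + t := fun i =>
    (eq_div_iff (hB i).ne').1 (E1 i)
  have e2 : ∀ i, p i * (s ^ 2 + (psi V p i + t) * (phi V q i + t)) = psi V p i + t := fun i =>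
    (eq_div_iff (hB i).ne').1 (E2 i)
  have flow : ∀ i, q i * (psi V p i + t) = p i * (phi V q i + t) := by
    intro i
    have h1 := e1 i
    have h2 := e2 i
    apply mul_right_cancel₀ (hB i).ne'
    linear_combination (psi V p i + t) * h1 - (phi V q i + t) * h2
  refine ⟨q, p, q0, p0, e1, e2, ?_⟩
  have s1 : ∑ i, q i * psi V p i = ∑ i, p i * phi V q i := by
    unfold psi phi
    simp_rw [mul_sum]
    rw [sum_comm]
    exact sum_congr rfl fun i _ => sum_congr rfl fun j _ => by ring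
  have s2 : ∑ i, q i * (psi V p i + t) = ∑ i, p i * (phi V q i + t) :=
    sum_congr rfl fun i _ => flow i
  simp_rw [mul_add, sum_add_distrib] at s2
  rw [s1, ← sum_mul, ← sum_mul] at s2
  have s3 : (∑ i, q i) * t = (∑ i, p i) * t := by linarith
  exact mul_right_cancel₀ ht.ne' s3

/-- Existence of a nonzero solution below the square root of the spectral radius. -/
theorem exists_sol {V : Matrix (Fin n) (Fin n) ℝ} (hV : ∀ i j, 0 ≤ V i j) (hI : Irr V)
    {s : ℝ} (hs : 0 < s) (hρ : ENNReal.ofReal (s ^ 2) < spectralRadius ℂ (cx V)) :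
    ∃ q p, Sys V s 0 q p ∧ (∀ i, 0 < q i) ∧ ∀ i, 0 < p i := by
  obtain ⟨C, hC⟩ := bound hV hI hs s
  set tt : ℕ → ℝ := fun m => 1 / ((m : ℝ) + 1) with htt
  have tt0 : ∀ m, 0 < tt m := fun m => by rw [htt]; positivity
  have tt1 : ∀ m, tt m ≤ 1 := fun m => by
    rw [htt]; simp only; rw [div_le_one (by positivity)]
    have : (0 : ℝ) ≤ m := Nat.cast_nonneg m
    linarith
  have ttl : Tendsto tt atTop (𝓝 0) := tendsto_one_div_add_atTop_nhds_zero_nat
  choose q p hqp using fun m => exists_pos_t hV hs (tt0 m)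
  -- compactness
  set x : ℕ → (Fin n → ℝ) × (Fin n → ℝ) := fun m => (q m, p m) with hx
  have hcomp : IsCompact ((Set.univ.pi fun _ : Fin n => Set.Icc (0 : ℝ) C) ×ˢ
      (Set.univ.pi fun _ : Fin n => Set.Icc (0 : ℝ) C)) :=
    (isCompact_univ_pi fun _ => isCompact_Icc).prod (isCompact_univ_pi fun _ => isCompact_Icc)
  have hmem : ∀ m, x m ∈ ((Set.univ.pi fun _ : Fin n => Set.Icc (0 : ℝ) C) ×ˢ
      (Set.univ.pi fun _ : Fin n => Set.Icc (0 : ℝ) C)) := by
    intro m
    have h1 := hC s (tt m) (q m) (p m) le_rfl le_rfl (tt0 m).le (tt1 m) (hqp m)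
    exact ⟨fun i _ => ⟨(hqp m).q0 i, (h1 i).1⟩, fun i _ => ⟨(hqp m).p0 i, (h1 i).2⟩⟩
  obtain ⟨y, _, φ, hφ, hlim⟩ := hcomp.tendsto_subseq hmem
  have lq : ∀ i, Tendsto (fun m => q (φ m) i) atTop (𝓝 (y.1 i)) := fun i =>
    (((continuous_apply i).comp continuous_fst).tendsto y).comp hlim
  have lp : ∀ i, Tendsto (fun m => p (φ m) i) atTop (𝓝 (y.2 i)) := fun i =>
    (((continuous_apply i).comp continuous_snd).tendsto y).comp hlim
  have lt' : Tendsto (fun m => tt (φ m)) atTop (𝓝 0) := ttl.comp hφ.tendsto_atTop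
  have lphi : ∀ i, Tendsto (fun m => phi V (q (φ m)) i) atTop (𝓝 (phi V y.1 i)) := fun i =>
    tendsto_finsetSum _ fun j _ => (lq j).const_mul _
  have lpsi : ∀ i, Tendsto (fun m => psi V (p (φ m)) i) atTop (𝓝 (psi V y.2 i)) := fun i =>
    tendsto_finsetSum _ fun j _ => (lp j).const_mul _
  have hsys : Sys V s 0 y.1 y.2 := by
    refine ⟨fun i => ge_of_tendsto' (lq i) fun m => (hqp _).q0 i,
      fun i => ge_of_tendsto' (lp i) fun m => (hqp _).p0 i, fun i => ?_, fun i => ?_, ?_⟩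
    · have h1 := (lq i).mul ((((lpsi i).add lt').mul ((lphi i).add lt')).const_add (s ^ 2))
      have h2 := (lphi i).add lt'
      refine tendsto_nhds_unique h1 (h2.congr fun m => ?_)
      exact ((hqp (φ m)).e1 i).symm
    · have h1 := (lp i).mul ((((lpsi i).add lt').mul ((lphi i).add lt')).const_add (s ^ 2))
      have h2 := (lpsi i).add lt'
      refine tendsto_nhds_unique h1 (h2.congr fun m => ?_)
      exact ((hqp (φ m)).e2 i).symm
    · have h1 : Tendsto (fun m => ∑ i, q (φ m) i) atTop (𝓝 (∑ i, y.1 i)) :=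
        tendsto_finsetSum _ fun j _ => lq j
      have h2 : Tendsto (fun m => ∑ i, p (φ m) i) atTop (𝓝 (∑ i, y.2 i)) :=
        tendsto_finsetSum _ fun j _ => lp j
      refine tendsto_nhds_unique h1 (h2.congr fun m => ?_)
      exact ((hqp (φ m)).sum).symm
  refine ⟨y.1, y.2, hsys, ?_⟩
  by_cases hne : y.1 ≠ 0 ∨ y.2 ≠ 0
  · exact Sys.pos_of_ne hV hs le_rfl hsys hI hne
  exfalso
  push Not at hne
  obtain ⟨z1, z2⟩ := hne
  -- then the spectral radius is at most `s² + ε`
  have key : ∀ ε : ℝ, 0 < ε → spectralRadius ℂ (cx V) ≤ ENNReal.ofReal (s ^ 2 + ε) := by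
    intro ε hε
    have h1 : ∀ i, ∀ᶠ m in atTop,
        (psi V (p (φ m)) i + tt (φ m)) * (phi V (q (φ m)) i + tt (φ m)) < ε := by
      intro i
      have h2 := ((lpsi i).add lt').mul ((lphi i).add lt')
      rw [z1, z2] at h2
      have h3 : (psi V (0 : Fin n → ℝ) i + 0) * (phi V (0 : Fin n → ℝ) i + 0) = 0 := by
        simp [psi, phi]
      rw [h3] at h2
      exact h2.eventually (gt_mem_nhds hε)
    obtain ⟨m, hm⟩ := (eventually_all.2 h1).exists
    have hS := hqp (φ m)
    have hq : ∀ i, 0 < q (φ m) i := fun i => by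
      apply Sys.q_pos_of hV hs (tt0 _).le hS
      linarith [phi_nonneg hV hS.q0 i, tt0 (φ m)]
    refine rho_le hV hq fun i => ?_
    have h2 := hS.e1 i
    have h3 := hm i
    have h4 := tt0 (φ m)
    calc phi V (q (φ m)) i ≤ phi V (q (φ m)) i + tt (φ m) := by linarith
      _ = q (φ m) i * (s ^ 2 + (psi V (p (φ m)) i + tt (φ m)) *
            (phi V (q (φ m)) i + tt (φ m))) := h2.symm
      _ ≤ q (φ m) i * (s ^ 2 + ε) := by
          apply mul_le_mul_of_nonneg_left _ (hq i).le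
          linarith
      _ = _ := by ring
  have key2 : spectralRadius ℂ (cx V) ≤ ENNReal.ofReal (s ^ 2) := by
    have h1 : Tendsto (fun ε : ℝ => ENNReal.ofReal (s ^ 2 + ε)) (𝓝[>] 0)
        (𝓝 (ENNReal.ofReal (s ^ 2))) := by
      apply ENNReal.tendsto_ofReal
      have : Tendsto (fun ε : ℝ => s ^ 2 + ε) (𝓝 0) (𝓝 (s ^ 2 + 0)) :=
        tendsto_const_nhds.add tendsto_id
      rw [add_zero] at this
      exact this.mono_left nhdsWithin_le_nhds
    refine ge_of_tendsto h1 ?_
    filter_upwards [self_mem_nhdsWithin] with ε hε using key ε hε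
  exact absurd hρ (not_lt.2 key2)

/-- There is no nonzero solution above the square root of the spectral radius. -/
theorem lt_of_sol (hn : 0 < n) {V : Matrix (Fin n) (Fin n) ℝ} (hV : ∀ i j, 0 ≤ V i j)
    {s : ℝ} (hs : 0 < s) {q p : Fin n → ℝ} (h : Sys V s 0 q p) (hq : ∀ i, 0 < q i)
    (hp : ∀ i, 0 < p i) : ENNReal.ofReal (s ^ 2) < spectralRadius ℂ (cx V) := by
  have hne : Nonempty (Fin n) := ⟨⟨0, hn⟩⟩
  have f1 : ∀ i, 0 < phi V q i := fun i => by
    have := h.e1 i
    have hB := Sys.B_pos hV hs le_rfl h i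
    have h2 : 0 < q i * (s ^ 2 + (psi V p i + 0) * (phi V q i + 0)) := mul_pos (hq i) hB
    rw [this] at h2
    linarith
  have f2 : ∀ i, 0 < psi V p i := fun i => by
    have := h.e2 i
    have hB := Sys.B_pos hV hs le_rfl h i
    have h2 : 0 < p i * (s ^ 2 + (psi V p i + 0) * (phi V q i + 0)) := mul_pos (hp i) hB
    rw [this] at h2
    linarith
  obtain ⟨m, hm⟩ := Finite.exists_min (fun i => psi V p i * phi V q i)
  have hε : 0 < psi V p m * phi V q m := mul_pos (f2 m) (f1 m)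
  have h1 : ENNReal.ofReal (s ^ 2 + psi V p m * phi V q m) ≤ spectralRadius ℂ (cx V) := by
    apply le_rho hn hV hq (by positivity)
    intro i
    have h2 := h.e1 i
    rw [add_zero, add_zero] at h2
    have h3 := hm i
    have h4 : q i * (s ^ 2 + psi V p m * phi V q m) ≤ q i * (s ^ 2 + psi V p i * phi V q i) := by
      apply mul_le_mul_of_nonneg_left _ (hq i).le
      linarith
    linarith
  refine lt_of_lt_of_le ?_ h1
  rw [ENNReal.ofReal_lt_ofReal_iff (by positivity)]
  linarith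

end Pool.Agent.Hq78.ME
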