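import Mathlib

set_option autoImplicit false

open MeasureTheory Metric Set

namespace Pool.Agent.Hq78.ME

/-- The support of a rotation invariant measure is rotation invariant. -/
theorem support_rot {μ : Measure ℂ} (hrot : ∀ u : ℂ, ‖u‖ = 1 → μ.map (fun z => u * z) = μ)
    {u z : ℂ} (hu : ‖u‖ = 1) (hz : z ∉ μ.support) : u * z ∉ μ.support := by
  rw [Measure.notMem_support_iff_exists] at hz ⊢
  obtain ⟨U, hU, hU0⟩ := hz
  obtain ⟨W, hWU, hWo, hzW⟩ := _root_.mem_nhds_iff.1 hU
  have hu0 : u ≠ 0 := by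
    intro h; rw [h, norm_zero] at hu; exact zero_ne_one hu
  have hui : ‖u⁻¹‖ = 1 := by rw [norm_inv, hu, inv_one]
  have hmeas : Measurable (fun z : ℂ => u * z) := measurable_const_mul u
  have hcont : Continuous (fun z : ℂ => u⁻¹ * z) := continuous_const.mul continuous_id
  refine ⟨(fun z => u⁻¹ * z) ⁻¹' W, (hWo.preimage hcont).mem_nhds ?_, ?_⟩
  · show u⁻¹ * (u * z) ∈ W
    rw [← mul_assoc, inv_mul_cancel₀ hu0, one_mul]; exact hzW
  · have h1 : μ.map (fun z => u⁻¹ * z) W = μ W := by rw [hrot u⁻¹ hui]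
    rw [Measure.map_apply (measurable_const_mul _) hWo.measurableSet] at h1
    rw [h1]
    exact measure_mono_null hWU hU0

theorem supp_eq {μ : Measure ℂ} [IsProbabilityMeasure μ]
    (hrot : ∀ u : ℂ, ‖u‖ = 1 → μ.map (fun z => u * z) = μ) {R : ℝ} (hR : 0 < R) {F : ℝ → ℝ}
    (hF : ∀ s, 0 < s → μ.real (closedBall 0 s) = F s) (hone : F R = 1)
    (hstrict : StrictMonoOn F (Ioo 0 R)) : μ.support = closedBall 0 R := by
  apply Subset.antisymm
  · apply Measure.support_subset_of_isClosed isClosed_closedBall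
    rw [mem_ae_iff]
    have h1 := hF R hR
    rw [hone] at h1
    have h2 : μ (closedBall 0 R) = 1 := by
      rw [← ENNReal.ofReal_one, ← h1, measureReal_def, ENNReal.ofReal_toReal (measure_ne_top _ _)]
    rw [measure_compl isClosed_closedBall.measurableSet (measure_ne_top _ _), h2, measure_univ,
      tsub_self]
  · -- interior points away from the centre
    have key : ∀ z : ℂ, 0 < ‖z‖ → ‖z‖ < R → z ∈ μ.support := by
      intro z hz0 hzR
      by_contra hcon
      obtain ⟨r, hr, hball⟩ := Metric.isOpen_iff.1 (Measure.isOpen_compl_support (μ := μ)) z hcon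
      obtain ⟨δ, hδ0, hδr, hδz, hδR⟩ : ∃ δ : ℝ, 0 < δ ∧ δ < r ∧ δ < ‖z‖ ∧ δ < R - ‖z‖ := by
        refine ⟨min (r / 2) (min (‖z‖ / 2) ((R - ‖z‖) / 2)), ?_, ?_, ?_, ?_⟩
        · have : 0 < R - ‖z‖ := by linarith
          positivity
        · exact lt_of_le_of_lt (min_le_left _ _) (by linarith)
        · exact lt_of_le_of_lt ((min_le_right _ _).trans (min_le_left _ _)) (by linarith)
        · exact lt_of_le_of_lt ((min_le_right _ _).trans (min_le_right _ _)) (by linarith)
      -- the annulus misses the support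
      have hann : closedBall (0 : ℂ) (‖z‖ + δ) \ closedBall 0 (‖z‖ - δ) ⊆ (μ.support)ᶜ := by
        rintro w ⟨hw1, hw2⟩
        rw [mem_closedBall_zero_iff] at hw1 hw2
        push Not at hw2
        have hw0 : 0 < ‖w‖ := by linarith
        have hwc : (w : ℂ) ≠ 0 := norm_pos_iff.1 hw0
        have hzc : (z : ℂ) ≠ 0 := norm_pos_iff.1 hz0
        have hnz : (‖z‖ : ℂ) ≠ 0 := by exact_mod_cast hz0.ne'
        have hnw : (‖w‖ : ℂ) ≠ 0 := by exact_mod_cast hw0.ne'
        set z' : ℂ := (‖w‖ / ‖z‖ : ℂ) * z with hz'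
        have hz'mem : z' ∈ (μ.support)ᶜ := by
          apply hball
          rw [mem_ball, dist_eq_norm]
          have : z' - z = ((‖w‖ - ‖z‖ : ℝ) : ℂ) * (z / ‖z‖) := by
            rw [hz']; push_cast; field_simp
          rw [this, norm_mul, norm_div, Complex.norm_real, Complex.norm_real, norm_norm,
            div_self hz0.ne', mul_one, Real.norm_eq_abs]
          have : |‖w‖ - ‖z‖| ≤ δ := abs_le.2 ⟨by linarith, by linarith⟩
          linarith
        set u : ℂ := w / z' with hu
        have hz'n : ‖z'‖ = ‖w‖ := by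
          rw [hz', norm_mul, norm_div, Complex.norm_real, Complex.norm_real, norm_norm, norm_norm]
          field_simp
        have hz'0 : z' ≠ 0 := by
          rw [← norm_pos_iff, hz'n]; exact hw0
        have hu1 : ‖u‖ = 1 := by rw [hu, norm_div, hz'n, div_self hw0.ne']
        have := support_rot hrot hu1 hz'mem
        rwa [hu, div_mul_cancel₀ _ hz'0] at this
      have h0 : μ (closedBall (0 : ℂ) (‖z‖ + δ) \ closedBall 0 (‖z‖ - δ)) = 0 :=
        measure_mono_null hann Measure.measure_compl_support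
      have h1 : μ.real (closedBall (0 : ℂ) (‖z‖ + δ)) ≤ μ.real (closedBall 0 (‖z‖ - δ)) := by
        have h2 : closedBall (0 : ℂ) (‖z‖ + δ) ⊆
            (closedBall (0 : ℂ) (‖z‖ + δ) \ closedBall 0 (‖z‖ - δ)) ∪ closedBall 0 (‖z‖ - δ) := by
          intro y hy
          by_cases h3 : y ∈ closedBall (0 : ℂ) (‖z‖ - δ)
          · exact Or.inr h3
          · exact Or.inl ⟨hy, h3⟩
        have h3 : μ (closedBall (0 : ℂ) (‖z‖ + δ)) ≤ μ (closedBall 0 (‖z‖ - δ)) := by
          calc μ (closedBall (0 : ℂ) (‖z‖ + δ)) ≤ _ := measure_mono h2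
            _ ≤ _ := measure_union_le _ _
            _ = _ := by rw [h0, zero_add]
        exact ENNReal.toReal_mono (measure_ne_top _ _) h3
      rw [hF _ (by linarith), hF _ (by linarith)] at h1
      have h2 := hstrict (a := ‖z‖ - δ) (b := ‖z‖ + δ) ⟨by linarith, by linarith⟩
        ⟨by linarith, by linarith⟩ (by linarith)
      linarith
    have hsub : ball (0 : ℂ) R \ {0} ⊆ μ.support := by
      rintro z ⟨hz, hz0⟩
      exact key z (norm_pos_iff.2 hz0) (by simpa using hz)
    have hcl : closure (ball (0 : ℂ) R \ {0}) ⊆ μ.support :=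
      closure_minimal hsub Measure.isClosed_support
    have hd : closure (ball (0 : ℂ) R \ {0}) = closedBall 0 R := by
      have h1 : Dense (({0} : Set ℂ)ᶜ) := dense_compl_singleton 0
      have h2 : closure (ball (0 : ℂ) R ∩ ({0} : Set ℂ)ᶜ) = closure (ball (0 : ℂ) R) :=
        Subset.antisymm (closure_mono inter_subset_left)
          (closure_minimal (h1.open_subset_closure_inter isOpen_ball) isClosed_closure)
      rw [diff_eq, h2, closure_ball _ hR.ne']
    rw [← hd]; exact hcl

theorem supp_eq_zero {μ : Measure ℂ} [IsProbabilityMeasure μ]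
    {F : ℝ → ℝ} (hF : ∀ s, 0 < s → μ.real (closedBall 0 s) = F s)
    (hone : ∀ s, 0 < s → F s = 1) : μ.support = closedBall 0 0 := by
  have hsub : μ.support ⊆ closedBall 0 0 := by
    intro z hz
    by_contra hcon
    rw [mem_closedBall_zero_iff] at hcon
    push Not at hcon
    have h1 := hF (‖z‖ / 2) (by linarith)
    rw [hone _ (by linarith)] at h1
    have h2 : μ (closedBall 0 (‖z‖ / 2)) = 1 := by
      rw [← ENNReal.ofReal_one, ← h1, measureReal_def, ENNReal.ofReal_toReal (measure_ne_top _ _)]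
    have h3 : μ.support ⊆ closedBall 0 (‖z‖ / 2) := by
      apply Measure.support_subset_of_isClosed isClosed_closedBall
      rw [mem_ae_iff, measure_compl isClosed_closedBall.measurableSet (measure_ne_top _ _), h2,
        measure_univ, tsub_self]
    have h4 := h3 hz
    rw [mem_closedBall_zero_iff] at h4
    linarith
  apply Subset.antisymm hsub
  obtain ⟨z, hz⟩ := Measure.nonempty_support (μ := μ) (IsProbabilityMeasure.ne_zero μ)
  have h1 := hsub hz
  rw [closedBall_zero, mem_singleton_iff] at h1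
  rw [closedBall_zero]
  rintro y rfl
  rwa [h1] at hz

end Pool.Agent.Hq78.ME
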