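import Pool.Agent.Hq78.ME.Strict
import Pool.Agent.Hq78.ME.Meas

set_option autoImplicit false

open MeasureTheory Metric Set Matrix

namespace Pool.Agent.Hq78.ME.FullDiskKnown

variable {n : ℕ}

/-- The digraph on `Fin n` with an edge `a → b` whenever `0 < A a b` is strongly connected. -/
def StronglyConnected (A : Matrix (Fin n) (Fin n) ℝ) : Prop :=
  ∀ i j, Relation.ReflTransGen (fun a b => 0 < A a b) i j

/-- The variance profile `V = (1/n) (σ_ij²)`. -/
noncomputable def profile (A : Matrix (Fin n) (Fin n) ℝ) : Matrix (Fin n) (Fin n) ℝ :=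
  fun i j => 1 / (n : ℝ) * A i j ^ 2

/-- The spectral radius of a real square matrix: that of the same matrix over the complex numbers. -/
noncomputable def rho (V : Matrix (Fin n) (Fin n) ℝ) : ℝ :=
  (spectralRadius ℂ (V.map (algebraMap ℝ ℂ))).toReal

/-- The Master Equations at `s` in the unknowns `q`, `p` (`p` stands for `q` with a tilde). -/
structure Master (V : Matrix (Fin n) (Fin n) ℝ) (s : ℝ) (q p : Fin n → ℝ) : Prop where
  q_nonneg : ∀ i, 0 ≤ q i
  p_nonneg : ∀ i, 0 ≤ p i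
  eq_q : ∀ i, q i = (Vᵀ *ᵥ q) i / (s ^ 2 + (V *ᵥ p) i * (Vᵀ *ᵥ q) i)
  eq_p : ∀ i, p i = (V *ᵥ p) i / (s ^ 2 + (V *ᵥ p) i * (Vᵀ *ᵥ q) i)
  sum_eq : ∑ i, q i = ∑ i, p i

/-- The selected solution of the Master Equations of `A` at `s`: the zero solution if
`√(ρ(V)) ≤ s`, and a nonzero solution if `s < √(ρ(V))`. -/
def Selected (A : Matrix (Fin n) (Fin n) ℝ) (s : ℝ) (q p : Fin n → ℝ) : Prop :=
  Master (profile A) s q p ∧ ((q = 0 ∧ p = 0) ↔ √(rho (profile A)) ≤ s)

/-- `μ` is the deterministic equivalent of `A`: a radially symmetric probability measure on the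
complex plane with `μ {|z| ≤ s} = F_A(s) = 1 - (1/n) ⟨q(s), V p(s)⟩` for all `s > 0`. -/
structure IsDetEquiv (A : Matrix (Fin n) (Fin n) ℝ) (μ : Measure ℂ) : Prop where
  prob : IsProbabilityMeasure μ
  radial : ∀ u : ℂ, ‖u‖ = 1 → μ.map (fun z => u * z) = μ
  cdf : ∀ s : ℝ, 0 < s → ∀ q p : Fin n → ℝ, Selected A s q p →
    μ.real {z : ℂ | ‖z‖ ≤ s} = 1 - 1 / (n : ℝ) * (q ⬝ᵥ (profile A *ᵥ p))

section aux

open Pool.Agent.Hq78.ME

theorem phi_eq (V : Matrix (Fin n) (Fin n) ℝ) (q : Fin n → ℝ) (i : Fin n) :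
    (Vᵀ *ᵥ q) i = phi V q i := rfl

theorem psi_eq (V : Matrix (Fin n) (Fin n) ℝ) (q : Fin n → ℝ) (i : Fin n) :
    (V *ᵥ q) i = psi V q i := rfl

theorem profile_nonneg (A : Matrix (Fin n) (Fin n) ℝ) (i j : Fin n) : 0 ≤ profile A i j := by
  unfold profile; positivity

theorem irr_profile (hn : 1 ≤ n) {A : Matrix (Fin n) (Fin n) ℝ} (hI : StronglyConnected A) :
    Irr (profile A) := by
  intro i j
  have h : (fun a b => 0 < A a b) ≤ fun a b => 0 < profile A a b := by
    intro a b hab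
    have h1 : (0 : ℝ) < n := by exact_mod_cast hn
    have h2 : 0 < A a b := hab
    show 0 < 1 / (n : ℝ) * A a b ^ 2
    positivity
  exact Relation.ReflTransGen.mono h i j (hI i j)

theorem master_iff {V : Matrix (Fin n) (Fin n) ℝ} (hV : ∀ i j, 0 ≤ V i j) {s : ℝ} (hs : 0 < s)
    {q p : Fin n → ℝ} : Master V s q p ↔ Sys V s 0 q p := by
  constructor
  · intro h
    have hB : ∀ i, 0 < s ^ 2 + psi V p i * phi V q i := fun i => by
      have h1 := psi_nonneg hV h.p_nonneg i
      have h2 := phi_nonneg hV h.q_nonneg i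
      positivity
    refine ⟨h.q_nonneg, h.p_nonneg, fun i => ?_, fun i => ?_, h.sum_eq⟩
    · have h1 := h.eq_q i
      rw [phi_eq, psi_eq, eq_div_iff (hB i).ne'] at h1
      simpa using h1
    · have h1 := h.eq_p i
      rw [phi_eq, psi_eq, eq_div_iff (hB i).ne'] at h1
      simpa using h1
  · intro h
    have hB : ∀ i, 0 < s ^ 2 + psi V p i * phi V q i := fun i => by
      simpa using Sys.B_pos hV hs le_rfl h i
    refine ⟨h.q0, h.p0, fun i => ?_, fun i => ?_, h.sum⟩
    · rw [phi_eq, psi_eq, eq_div_iff (hB i).ne']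
      simpa using h.e1 i
    · rw [phi_eq, psi_eq, eq_div_iff (hB i).ne']
      simpa using h.e2 i

theorem rho_lt_iff {V : Matrix (Fin n) (Fin n) ℝ} (hV : ∀ i j, 0 ≤ V i j) {s : ℝ} (hs : 0 < s) :
    ENNReal.ofReal (s ^ 2) < spectralRadius ℂ (cx V) ↔ s < √(rho V) := by
  rw [ENNReal.ofReal_lt_iff_lt_toReal (by positivity) (rho_ne_top hV), Real.lt_sqrt hs.le]
  rfl

theorem existsUnique_selected (hn : 1 ≤ n) {A : Matrix (Fin n) (Fin n) ℝ}
    (hI : StronglyConnected A) {s : ℝ} (hs : 0 < s) :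
    ∃! x : (Fin n → ℝ) × (Fin n → ℝ), Selected A s x.1 x.2 := by
  have hV := profile_nonneg A
  have hIr := irr_profile hn hI
  have hn' : 0 < n := hn
  rcases lt_or_ge s (√(rho (profile A))) with hlt | hge
  · obtain ⟨q, p, h1, h2, h3⟩ := exists_sol hV hIr hs ((rho_lt_iff hV hs).2 hlt)
    refine ⟨(q, p), ⟨(master_iff hV hs).2 h1, ?_⟩, ?_⟩
    · constructor
      · rintro ⟨h4, -⟩
        have h5 := h2 ⟨0, hn'⟩
        have h6 : q ⟨0, hn'⟩ = 0 := congrFun h4 _
        linarith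
      · intro h4; exact absurd hlt (not_lt.2 h4)
    · rintro ⟨q', p'⟩ ⟨h4, h5⟩
      have h6 : q' ≠ 0 ∨ p' ≠ 0 := by
        by_contra h7
        push Not at h7
        exact absurd hlt (not_lt.2 (h5.1 h7))
      have h7 := (master_iff hV hs).1 h4
      obtain ⟨h8, h9⟩ := Sys.pos_of_ne hV hs le_rfl h7 hIr h6
      obtain ⟨h10, h11⟩ := Sys.unique hV hIr hs h7 h1 h8 h9 h2 h3
      exact Prod.ext h10 h11
  · refine ⟨(0, 0), ⟨(master_iff hV hs).2 ?_, by simp [hge]⟩, ?_⟩
    · exact ⟨by simp, by simp, by simp [phi], by simp [psi], by simp⟩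
    · rintro ⟨q', p'⟩ ⟨_, h5⟩
      obtain ⟨h6, h7⟩ := h5.2 hge
      exact Prod.ext h6 h7

theorem main (hn : 1 ≤ n) {A : Matrix (Fin n) (Fin n) ℝ} (hI : StronglyConnected A)
    {μ : Measure ℂ} (hμ : IsDetEquiv A μ) :
    μ.support = closedBall 0 (√(rho (profile A))) := by
  have hV := profile_nonneg A
  have hIr := irr_profile hn hI
  have hn' : 0 < n := hn
  have := hμ.prob
  have hex : ∀ s : ℝ, ∃ x : (Fin n → ℝ) × (Fin n → ℝ), 0 < s → Selected A s x.1 x.2 := by
    intro s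
    by_cases hs : 0 < s
    · obtain ⟨x, hx, -⟩ := existsUnique_selected hn hI hs
      exact ⟨x, fun _ => hx⟩
    · exact ⟨(0, 0), fun h => absurd h hs⟩
  choose x hx using hex
  have hball : ∀ s : ℝ, {z : ℂ | ‖z‖ ≤ s} = closedBall 0 s := fun s => by
    ext z; simp
  have hF : ∀ s, 0 < s → μ.real (closedBall 0 s) = Fval (profile A) (x s) := by
    intro s hs
    rw [← hball, hμ.cdf s hs _ _ (hx s hs)]
    rfl
  have hone : ∀ s, 0 < s → √(rho (profile A)) ≤ s → Fval (profile A) (x s) = 1 := by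
    intro s hs hge
    have h1 := ((hx s hs).2).2 hge
    unfold Fval
    rw [h1.1]
    simp
  rcases (Real.sqrt_nonneg (rho (profile A))).eq_or_lt with h0 | hR
  · rw [← h0]
    refine supp_eq_zero hF fun s hs => hone s hs ?_
    rw [← h0]; exact hs.le
  · refine supp_eq hμ.radial hR hF (hone _ hR le_rfl) ?_
    have hx1 : ∀ s, 0 < s → Sys (profile A) s 0 (x s).1 (x s).2 := fun s hs =>
      (master_iff hV hs).1 (hx s hs).1
    refine strict hn' hV hIr hx1 ?_ hR (fun s hs => rho_lt_iff hV hs) ?_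
    · intro s hs hlt
      rw [rho_lt_iff hV hs] at hlt
      refine Sys.pos_of_ne hV hs le_rfl (hx1 s hs) hIr ?_
      by_contra h7
      push Not at h7
      exact absurd hlt (not_lt.2 (((hx s hs).2).1 h7))
    · intro s hs t ht hst
      show Fval (profile A) (x s) ≤ Fval (profile A) (x t)
      rw [← hF s hs.1, ← hF t ht.1]
      exact measureReal_mono (closedBall_subset_closedBall hst) (measure_ne_top _ _)

end aux

/-- The support of the deterministic equivalent of an irreducible nonnegative `A` is the whole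
closed disk of radius `√(ρ(V))`; in particular it is connected. -/
theorem result (n : ℕ) (hn : 1 ≤ n) (A : Matrix (Fin n) (Fin n) ℝ) (_hA : ∀ i j, 0 ≤ A i j)
    (hI : StronglyConnected A) :
    (∀ s : ℝ, 0 < s → ∃! x : (Fin n → ℝ) × (Fin n → ℝ), Selected A s x.1 x.2) ∧
    (∀ s : ℝ, √(rho (profile A)) ≤ s → 0 < s → ∀ q p : Fin n → ℝ,
      Master (profile A) s q p → q = 0 ∧ p = 0) ∧
    ∀ μ : Measure ℂ, IsDetEquiv A μ →
      μ.support = closedBall 0 (√(rho (profile A))) ∧ IsConnected μ.support := by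
  refine ⟨fun s hs => existsUnique_selected hn hI hs, ?_, ?_⟩
  · intro s hge hs q p h
    by_contra hcon
    have hV := profile_nonneg A
    have h1 := (Pool.Agent.Hq78.ME.FullDiskKnown.master_iff hV hs).1 h
    have hne : q ≠ 0 ∨ p ≠ 0 := by
      by_contra h7
      push Not at h7
      exact hcon h7
    obtain ⟨h2, h3⟩ := Pool.Agent.Hq78.ME.Sys.pos_of_ne hV hs le_rfl h1 (irr_profile hn hI) hne
    have h4 := Pool.Agent.Hq78.ME.lt_of_sol hn hV hs h1 h2 h3
    rw [rho_lt_iff hV hs] at h4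
    exact absurd h4 (not_lt.2 hge)
  · intro μ hμ
    have h := main hn hI hμ
    refine ⟨h, ?_⟩
    rw [h]
    exact (convex_closedBall _ _).isConnected ⟨0, by simp⟩

end Pool.Agent.Hq78.ME.FullDiskKnown
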