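import Pool.Agent.Hq78.ME.Bound

set_option autoImplicit false
set_option linter.unusedSectionVars false

open Finset Filter Topology

namespace Pool.Agent.Hq78.ME

variable {n : ℕ}

/-- the complexification -/
noncomputable def cx (V : Matrix (Fin n) (Fin n) ℝ) : Matrix (Fin n) (Fin n) ℂ :=
  V.map (algebraMap ℝ ℂ)

theorem rho_le {V : Matrix (Fin n) (Fin n) ℝ} (hV : ∀ i j, 0 ≤ V i j) {q : Fin n → ℝ}
    (hq : ∀ i, 0 < q i) {c : ℝ} (h : ∀ i, phi V q i ≤ c * q i) :
    spectralRadius ℂ (cx V) ≤ ENNReal.ofReal c := by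
  unfold spectralRadius
  refine iSup₂_le fun l hl => ?_
  rw [spectrum.mem_iff, Matrix.isUnit_iff_isUnit_det, isUnit_iff_ne_zero, not_not] at hl
  obtain ⟨x, hx0, hx⟩ := Matrix.exists_vecMul_eq_zero_iff.2 hl
  -- `l x_i = Σ_j x_j V_ji`
  have hx1 : ∀ i, l * x i = ∑ j, x j * (V j i : ℂ) := by
    intro i
    have h1 := congrFun hx i
    rw [Matrix.vecMul_sub] at h1
    simp only [Pi.sub_apply, Pi.zero_apply] at h1
    have h2 : (Matrix.vecMul x ((algebraMap ℂ (Matrix (Fin n) (Fin n) ℂ)) l)) i = l * x i := by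
      rw [Matrix.algebraMap_eq_diagonal, Matrix.vecMul_diagonal]
      simp [mul_comm]
    have h3 : (Matrix.vecMul x (cx V)) i = ∑ j, x j * (V j i : ℂ) := by
      simp [Matrix.vecMul, dotProduct, cx]
    rw [h2, h3] at h1
    exact sub_eq_zero.1 h1
  obtain ⟨k, hk⟩ := Function.ne_iff.1 hx0
  have : Nonempty (Fin n) := ⟨k⟩
  obtain ⟨m, hm⟩ := Finite.exists_max (fun i => ‖x i‖ / q i)
  have hpos : 0 < ‖x m‖ := by
    have h1 : 0 < ‖x k‖ / q k := div_pos (norm_pos_iff.2 hk) (hq k)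
    have h2 := lt_of_lt_of_le h1 (hm k)
    by_contra hcon
    push Not at hcon
    have : ‖x m‖ / q m ≤ 0 := div_nonpos_of_nonpos_of_nonneg hcon (hq m).le
    linarith
  have hle : ‖l‖ * ‖x m‖ ≤ c * ‖x m‖ := by
    calc ‖l‖ * ‖x m‖ = ‖∑ j, x j * (V j m : ℂ)‖ := by rw [← norm_mul, hx1]
      _ ≤ ∑ j, ‖x j * (V j m : ℂ)‖ := norm_sum_le _ _
      _ = ∑ j, V j m * ‖x j‖ := by
          refine sum_congr rfl fun j _ => ?_
          rw [norm_mul, Complex.norm_real, Real.norm_of_nonneg (hV j m), mul_comm]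
      _ ≤ ∑ j, V j m * (‖x m‖ / q m * q j) := by
          refine sum_le_sum fun j _ => mul_le_mul_of_nonneg_left ?_ (hV j m)
          have := hm j
          rwa [div_le_iff₀ (hq j)] at this
      _ = ‖x m‖ / q m * phi V q m := by
          unfold phi; rw [mul_sum]; exact sum_congr rfl fun j _ => by ring
      _ ≤ ‖x m‖ / q m * (c * q m) := by
          apply mul_le_mul_of_nonneg_left (h m)
          exact div_nonneg (norm_nonneg _) (hq m).le
      _ = c * ‖x m‖ := by
          have := (hq m).ne'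
          field_simp
  have hlc : ‖l‖ ≤ c := le_of_mul_le_mul_right hle hpos
  rw [ENNReal.le_ofReal_iff_toReal_le ENNReal.coe_ne_top ((norm_nonneg l).trans hlc)]
  simpa using hlc

section norm

attribute [local instance] Matrix.linftyOpNormedRing Matrix.linftyOpNormedAlgebra

theorem entry_le_norm (M : Matrix (Fin n) (Fin n) ℂ) (i j : Fin n) : ‖M i j‖ ≤ ‖M‖ := by
  rw [Matrix.linfty_opNorm_def]
  have h1 : ‖M i j‖₊ ≤ ∑ j, ‖M i j‖₊ :=
    single_le_sum (f := fun j => ‖M i j‖₊) (fun _ _ => zero_le) (mem_univ j)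
  have h2 : ∑ j, ‖M i j‖₊ ≤ (univ : Finset (Fin n)).sup fun i => ∑ j, ‖M i j‖₊ :=
    le_sup (f := fun i => ∑ j, ‖M i j‖₊) (mem_univ i)
  exact_mod_cast h1.trans h2

theorem le_rho (hn : 0 < n) {V : Matrix (Fin n) (Fin n) ℝ} (hV : ∀ i j, 0 ≤ V i j) {q : Fin n → ℝ}
    (hq : ∀ i, 0 < q i) {c : ℝ} (hc : 0 < c) (h : ∀ i, c * q i ≤ phi V q i) :
    ENNReal.ofReal c ≤ spectralRadius ℂ (cx V) := by
  have hne : Nonempty (Fin n) := ⟨⟨0, hn⟩⟩
  have hpow : ∀ k : ℕ, ∀ i, c ^ k * q i ≤ ∑ j, (V ^ k) j i * q j := by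
    intro k
    induction k with
    | zero => intro i; simp [Matrix.one_apply]
    | succ k ih =>
      intro i
      have h1 : ∑ j, (V ^ (k + 1)) j i * q j = ∑ l, V l i * ∑ j, (V ^ k) j l * q j := by
        simp_rw [pow_succ, Matrix.mul_apply, sum_mul, mul_sum]
        rw [sum_comm]
        exact sum_congr rfl fun l _ => sum_congr rfl fun j _ => by ring
      rw [h1]
      calc c ^ (k + 1) * q i = c ^ k * (c * q i) := by ring
        _ ≤ c ^ k * phi V q i := by
            apply mul_le_mul_of_nonneg_left (h i) (by positivity)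
        _ = ∑ l, V l i * (c ^ k * q l) := by
            unfold phi; rw [mul_sum]; exact sum_congr rfl fun j _ => by ring
        _ ≤ _ := sum_le_sum fun l _ => mul_le_mul_of_nonneg_left (ih l) (hV l i)
  obtain ⟨m, hm⟩ := Finite.exists_max q
  set κ : ℝ := q m / (n * q m) with hκ
  have hn' : (0 : ℝ) < n := by exact_mod_cast hn
  have hκ0 : 0 < κ := div_pos (hq m) (mul_pos hn' (hq m))
  have hnorm : ∀ k : ℕ, κ * c ^ k ≤ ‖(cx V) ^ k‖ := by
    intro k
    have h1 : ∀ j, (V ^ k) j m ≤ ‖(cx V) ^ k‖ := by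
      intro j
      have e : (cx V) ^ k = cx (V ^ k) := by
        unfold cx
        exact (Matrix.map_pow (f := algebraMap ℝ ℂ) V k).symm
      have h2 := entry_le_norm ((cx V) ^ k) j m
      rw [e] at h2 ⊢
      refine le_trans ?_ h2
      simp only [cx, Matrix.map_apply]
      rw [Complex.coe_algebraMap, Complex.norm_real]
      exact le_abs_self _
    have h2 : c ^ k * q m ≤ n * (‖(cx V) ^ k‖ * q m) := by
      calc c ^ k * q m ≤ ∑ j, (V ^ k) j m * q j := hpow k m
        _ ≤ ∑ _j : Fin n, ‖(cx V) ^ k‖ * q m := by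
            refine sum_le_sum fun j _ => ?_
            exact mul_le_mul (h1 j) (hm j) (hq j).le (norm_nonneg _)
        _ = _ := by simp
    rw [hκ, div_mul_eq_mul_div, div_le_iff₀ (mul_pos hn' (hq m))]
    calc q m * c ^ k = c ^ k * q m := by ring
      _ ≤ _ := h2
      _ = _ := by ring
  have hlim := spectrum.pow_nnnorm_pow_one_div_tendsto_nhds_spectralRadius (cx V)
  have hlim2 : Tendsto (fun k : ℕ => (ENNReal.ofReal (κ ^ (1 / (k : ℝ)) * c))) atTop
      (𝓝 (ENNReal.ofReal c)) := by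
    apply ENNReal.tendsto_ofReal
    have h1 : Tendsto (fun k : ℕ => κ ^ (1 / (k : ℝ))) atTop (𝓝 1) := by
      have h2 : Tendsto (fun k : ℕ => 1 / (k : ℝ)) atTop (𝓝 0) := tendsto_one_div_atTop_nhds_zero_nat
      have h3 := (Real.continuousAt_const_rpow hκ0.ne' (b := (0:ℝ))).tendsto.comp h2
      rw [Real.rpow_zero] at h3
      exact h3
    simpa using h1.mul_const c
  refine le_of_tendsto_of_tendsto hlim2 hlim ?_
  filter_upwards [eventually_ge_atTop 1] with k hk
  have hk' : (0 : ℝ) < k := by exact_mod_cast hk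
  have h1 := hnorm k
  have h2 : ENNReal.ofReal (κ * c ^ k) ≤ (‖(cx V) ^ k‖₊ : ENNReal) := by
    rw [ENNReal.ofReal_le_iff_le_toReal ENNReal.coe_ne_top]
    simpa using h1
  have h3 := ENNReal.rpow_le_rpow h2 (by positivity : (0 : ℝ) ≤ 1 / k)
  refine le_trans (le_of_eq ?_) h3
  rw [ENNReal.ofReal_rpow_of_pos (by positivity)]
  congr 1
  rw [Real.mul_rpow hκ0.le (by positivity), ← Real.rpow_natCast c k, ← Real.rpow_mul hc.le]
  rw [mul_one_div_cancel hk'.ne', Real.rpow_one]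

end norm

theorem rho_ne_top {V : Matrix (Fin n) (Fin n) ℝ} (hV : ∀ i j, 0 ≤ V i j) :
    spectralRadius ℂ (cx V) ≠ ⊤ := by
  have h : ∀ i, phi V (fun _ => 1) i ≤ (∑ i, ∑ j, V j i) * (fun _ : Fin n => (1 : ℝ)) i := by
    intro i
    unfold phi
    simp only [mul_one]
    exact single_le_sum (f := fun i => ∑ j, V j i) (fun i _ => sum_nonneg fun j _ => hV j i)
      (mem_univ i)
  exact ne_top_of_le_ne_top ENNReal.ofReal_ne_top (rho_le hV (fun _ => one_pos) h)

end Pool.Agent.Hq78.ME
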