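import Pool.Agent.Hq78.ME.Anal

set_option autoImplicit false
set_option linter.unusedSectionVars false

open Finset Filter Topology
open scoped ContDiff

namespace Pool.Agent.Hq78.ME

variable {n : ℕ}

/-- At the edge the solutions tend to zero. -/
theorem edge (hn : 0 < n) {V : Matrix (Fin n) (Fin n) ℝ} (hV : ∀ i j, 0 ≤ V i j) (hI : Irr V)
    {R : ℝ} (hR : 0 < R) (hρ : ¬ ENNReal.ofReal (R ^ 2) < spectralRadius ℂ (cx V))
    {s : ℕ → ℝ} (h1 : ∀ m, R / 2 ≤ s m) (h2 : ∀ m, s m ≤ R) (hs : Tendsto s atTop (𝓝 R))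
    {q p : ℕ → Fin n → ℝ} (hqp : ∀ m, Sys V (s m) 0 (q m) (p m)) :
    ∃ φ : ℕ → ℕ, Tendsto (fun m => ∑ i, q (φ m) i * psi V (p (φ m)) i) atTop (𝓝 0) := by
  obtain ⟨C, hC⟩ := bound hV hI (half_pos hR) R
  have hcomp : IsCompact ((Set.univ.pi fun _ : Fin n => Set.Icc (0 : ℝ) C) ×ˢ
      (Set.univ.pi fun _ : Fin n => Set.Icc (0 : ℝ) C)) :=
    (isCompact_univ_pi fun _ => isCompact_Icc).prod (isCompact_univ_pi fun _ => isCompact_Icc)
  set x : ℕ → (Fin n → ℝ) × (Fin n → ℝ) := fun m => (q m, p m) with hx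
  have hmem : ∀ m, x m ∈ ((Set.univ.pi fun _ : Fin n => Set.Icc (0 : ℝ) C) ×ˢ
      (Set.univ.pi fun _ : Fin n => Set.Icc (0 : ℝ) C)) := by
    intro m
    have h1 := hC (s m) 0 (q m) (p m) (h1 m) (h2 m) le_rfl zero_le_one (hqp m)
    exact ⟨fun i _ => ⟨(hqp m).q0 i, (h1 i).1⟩, fun i _ => ⟨(hqp m).p0 i, (h1 i).2⟩⟩
  obtain ⟨y, _, φ, hφ, hlim⟩ := hcomp.tendsto_subseq hmem
  have lq : ∀ i, Tendsto (fun m => q (φ m) i) atTop (𝓝 (y.1 i)) := fun i =>
    (((continuous_apply i).comp continuous_fst).tendsto y).comp hlim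
  have lp : ∀ i, Tendsto (fun m => p (φ m) i) atTop (𝓝 (y.2 i)) := fun i =>
    (((continuous_apply i).comp continuous_snd).tendsto y).comp hlim
  have ls : Tendsto (fun m => s (φ m)) atTop (𝓝 R) := hs.comp hφ.tendsto_atTop
  have lphi : ∀ i, Tendsto (fun m => phi V (q (φ m)) i) atTop (𝓝 (phi V y.1 i)) := fun i =>
    tendsto_finsetSum _ fun j _ => (lq j).const_mul _
  have lpsi : ∀ i, Tendsto (fun m => psi V (p (φ m)) i) atTop (𝓝 (psi V y.2 i)) := fun i =>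
    tendsto_finsetSum _ fun j _ => (lp j).const_mul _
  have hsys : Sys V R 0 y.1 y.2 := by
    refine ⟨fun i => ge_of_tendsto' (lq i) fun m => (hqp _).q0 i,
      fun i => ge_of_tendsto' (lp i) fun m => (hqp _).p0 i, fun i => ?_, fun i => ?_, ?_⟩
    · have h1 := (lq i).mul ((ls.pow 2).add (((lpsi i).add_const 0).mul ((lphi i).add_const 0)))
      have h2 := (lphi i).add_const 0
      refine tendsto_nhds_unique h1 (h2.congr fun m => ?_)
      exact ((hqp (φ m)).e1 i).symm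
    · have h1 := (lp i).mul ((ls.pow 2).add (((lpsi i).add_const 0).mul ((lphi i).add_const 0)))
      have h2 := (lpsi i).add_const 0
      refine tendsto_nhds_unique h1 (h2.congr fun m => ?_)
      exact ((hqp (φ m)).e2 i).symm
    · have h1 : Tendsto (fun m => ∑ i, q (φ m) i) atTop (𝓝 (∑ i, y.1 i)) :=
        tendsto_finsetSum _ fun j _ => lq j
      have h2 : Tendsto (fun m => ∑ i, p (φ m) i) atTop (𝓝 (∑ i, y.2 i)) :=
        tendsto_finsetSum _ fun j _ => lp j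
      refine tendsto_nhds_unique h1 (h2.congr fun m => ?_)
      exact ((hqp (φ m)).sum).symm
  have hz : y.1 = 0 ∧ y.2 = 0 := by
    by_contra hcon
    have hne : y.1 ≠ 0 ∨ y.2 ≠ 0 := by
      by_contra h3
      push Not at h3
      exact hcon h3
    obtain ⟨h3, h4⟩ := Sys.pos_of_ne hV hR le_rfl hsys hI hne
    exact hρ (lt_of_sol hn hV hR hsys h3 h4)
  refine ⟨φ, ?_⟩
  have h5 : Tendsto (fun m => ∑ i, q (φ m) i * psi V (p (φ m)) i) atTop
      (𝓝 (∑ i, y.1 i * psi V y.2 i)) :=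
    tendsto_finsetSum _ fun i _ => (lq i).mul (lpsi i)
  rw [hz.1] at h5
  simpa using h5

/-- A monotone `F` is strictly monotone below the edge. -/
theorem strict (hn : 0 < n) {V : Matrix (Fin n) (Fin n) ℝ} (hV : ∀ i j, 0 ≤ V i j)
    (hI : Irr V) {x : ℝ → (Fin n → ℝ) × (Fin n → ℝ)}
    (hx : ∀ s, 0 < s → Sys V s 0 (x s).1 (x s).2)
    (hx' : ∀ s, 0 < s → ENNReal.ofReal (s ^ 2) < spectralRadius ℂ (cx V) →
      (∀ i, 0 < (x s).1 i) ∧ ∀ i, 0 < (x s).2 i) {R : ℝ} (hR : 0 < R)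
    (hRρ : ∀ s, 0 < s → (ENNReal.ofReal (s ^ 2) < spectralRadius ℂ (cx V) ↔ s < R))
    (hmono : MonotoneOn (fun s => Fval V (x s)) (Set.Ioo 0 R)) :
    StrictMonoOn (fun s => Fval V (x s)) (Set.Ioo 0 R) := by
  have hne : Nonempty (Fin n) := ⟨⟨0, hn⟩⟩
  set F : ℝ → ℝ := fun s => Fval V (x s) with hF
  have han : AnalyticOnNhd ℝ F (Set.Ioo 0 R) := fun s hs =>
    analyticAt_F hn hV hI hx hx' hs.1 ((hRρ s hs.1).2 hs.2)
  intro s1 hs1 s2 hs2 h12
  refine lt_of_le_of_ne (hmono hs1 hs2 h12.le) fun heq => ?_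
  -- `F` is constant between
  have hc : ∀ s ∈ Set.Icc s1 s2, F s = F s1 := by
    intro s hs
    have hs' : s ∈ Set.Ioo 0 R := ⟨lt_of_lt_of_le hs1.1 hs.1, lt_of_le_of_lt hs.2 hs2.2⟩
    apply le_antisymm
    · rw [heq]; exact hmono hs' hs2 hs.2
    · exact hmono hs1 hs' hs.1
  have hmid : (s1 + s2) / 2 ∈ Set.Ioo 0 R :=
    ⟨by linarith [hs1.1, hs2.1], by linarith [hs1.2, hs2.2]⟩
  have hev : F =ᶠ[𝓝 ((s1 + s2) / 2)] fun _ => F s1 := by
    filter_upwards [Icc_mem_nhds (show s1 < (s1 + s2) / 2 by linarith)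
      (show (s1 + s2) / 2 < s2 by linarith)] with s hs using hc s hs
  have hall : Set.EqOn F (fun _ => F s1) (Set.Ioo 0 R) :=
    han.eqOn_of_preconnected_of_eventuallyEq analyticOnNhd_const isPreconnected_Ioo hmid hev
  -- sequence to the edge
  set s : ℕ → ℝ := fun m => R - R / 2 * (1 / ((m : ℝ) + 1)) with hsdef
  have hb : ∀ m : ℕ, 0 < 1 / ((m : ℝ) + 1) ∧ 1 / ((m : ℝ) + 1) ≤ 1 := fun m => by
    have : (0 : ℝ) ≤ m := Nat.cast_nonneg m
    exact ⟨by positivity, by rw [div_le_one (by positivity)]; linarith⟩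
  have h1 : ∀ m, R / 2 ≤ s m := fun m => by
    have := hb m
    have h3 : R / 2 * (1 / ((m : ℝ) + 1)) ≤ R / 2 * 1 :=
      mul_le_mul_of_nonneg_left this.2 (by linarith)
    simp only [hsdef]; linarith
  have h2 : ∀ m, s m < R := fun m => by
    have := hb m
    have h3 : 0 < R / 2 * (1 / ((m : ℝ) + 1)) := mul_pos (by linarith) this.1
    simp only [hsdef]; linarith
  have hslim : Tendsto s atTop (𝓝 R) := by
    have h3 := (tendsto_one_div_add_atTop_nhds_zero_nat (𝕜 := ℝ)).const_mul (R / 2)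
    have h4 := h3.const_sub R
    rw [mul_zero, sub_zero] at h4
    exact h4
  have hs0 : ∀ m, 0 < s m := fun m => by linarith [h1 m]
  have hedge : ¬ ENNReal.ofReal (R ^ 2) < spectralRadius ℂ (cx V) := by
    rw [hRρ R hR]; exact lt_irrefl _
  obtain ⟨φ, hφ⟩ := edge hn hV hI hR hedge h1 (fun m => (h2 m).le) hslim
    (q := fun m => (x (s m)).1) (p := fun m => (x (s m)).2) (fun m => hx _ (hs0 m))
  have hval : ∀ r ∈ Set.Ioo 0 R, ∑ i, (x r).1 i * psi V (x r).2 i = n * (1 - F s1) := by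
    intro r hr
    have h3 : F r = F s1 := hall hr
    rw [← h3, hF]
    unfold Fval
    have : (n : ℝ) ≠ 0 := by positivity
    field_simp
    ring
  have hconst : (fun m => ∑ i, (x (s (φ m))).1 i * psi V (x (s (φ m))).2 i) =
      fun _ => n * (1 - F s1) := by
    funext m
    exact hval _ ⟨hs0 _, h2 _⟩
  have hzero : n * (1 - F s1) = 0 := by
    have h3 : Tendsto (fun _ : ℕ => n * (1 - F s1)) atTop (𝓝 0) := by
      rw [← hconst]; exact hφ
    exact tendsto_nhds_unique tendsto_const_nhds h3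
  have h3 := hval s1 hs1
  rw [hzero] at h3
  obtain ⟨h4, h5⟩ := hx' s1 hs1.1 ((hRρ s1 hs1.1).2 hs1.2)
  have h6 : 0 < ∑ i, (x s1).1 i * psi V (x s1).2 i := by
    refine sum_pos (fun i _ => mul_pos (h4 i) ?_) univ_nonempty
    have h7 := (hx s1 hs1.1).e2 i
    have h8 : 0 < (x s1).2 i * (s1 ^ 2 + (psi V (x s1).2 i + 0) * (phi V (x s1).1 i + 0)) :=
      mul_pos (h5 i) (Sys.B_pos hV hs1.1 le_rfl (hx s1 hs1.1) i)
    rw [h7] at h8
    linarith
  linarith

end Pool.Agent.Hq78.ME
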