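import Pool.Agent.Hq78.ME.Basic

set_option autoImplicit false
set_option linter.unusedSectionVars false

open Finset

namespace Pool.Agent.Hq78.ME

variable {n : ℕ}

theorem alg1 {s a b c d u α β : ℝ} (hs : 0 < s) (ha : 0 < a) (hb : 0 < b) (hc : 0 < c)
    (hu : 0 < u) (hα : 0 < α)
    (h1 : u * (s ^ 2 + d * b) = b) (h2 : α * u * (s ^ 2 + c * a) = a)
    (h3 : a ≤ α * b) (h4 : d ≤ β * c) : α ≤ β ∧ (α = β → a = α * b ∧ d = α * c) := by
  have k1 : a * (1 - α * u * c) = α * u * s ^ 2 := by linear_combination -h2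
  have k2 : b * (1 - u * d) = u * s ^ 2 := by linear_combination -h1
  have k3 : 0 < 1 - α * u * c := by
    have : 0 < a * (1 - α * u * c) := by rw [k1]; positivity
    exact (pos_iff_pos_of_mul_pos this).1 ha
  have k4 : α * u * s ^ 2 ≤ α * b * (1 - α * u * c) := by
    rw [← k1]; exact mul_le_mul_of_nonneg_right h3 k3.le
  have k5 : u * s ^ 2 ≤ b * (1 - α * u * c) := by
    have : α * (u * s ^ 2) ≤ α * (b * (1 - α * u * c)) := by linarith
    exact le_of_mul_le_mul_left this hα
  rw [← k2] at k5
  have k6 : 1 - u * d ≤ 1 - α * u * c := le_of_mul_le_mul_left k5 hb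
  have k7 : u * (α * c) ≤ u * d := by linarith
  have k8 : α * c ≤ d := le_of_mul_le_mul_left k7 hu
  refine ⟨le_of_mul_le_mul_right (k8.trans h4) hc, fun hab => ?_⟩
  have k9 : d = α * c := le_antisymm (by rw [hab]; exact h4) k8
  refine ⟨?_, k9⟩
  have k10 : a * (1 - α * u * c) = (α * b) * (1 - α * u * c) := by
    rw [k1]
    have : u * s ^ 2 = b * (1 - α * u * c) := by rw [← k2, k9]; ring
    calc α * u * s ^ 2 = α * (u * s ^ 2) := by ring
      _ = _ := by rw [this]; ring
  exact mul_right_cancel₀ k3.ne' k10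

/-- Positive solutions of the unregularised system are unique. -/
theorem Sys.unique {V : Matrix (Fin n) (Fin n) ℝ} (hV : ∀ i j, 0 ≤ V i j) (hI : Irr V)
    {s : ℝ} (hs : 0 < s) {q p q' p' : Fin n → ℝ} (h : Sys V s 0 q p) (h' : Sys V s 0 q' p')
    (hq : ∀ i, 0 < q i) (hp : ∀ i, 0 < p i) (hq' : ∀ i, 0 < q' i) (hp' : ∀ i, 0 < p' i) :
    q = q' ∧ p = p' := by
  rcases Nat.eq_zero_or_pos n with hn | hn
  · subst hn
    exact ⟨funext fun i => i.elim0, funext fun i => i.elim0⟩
  have : Nonempty (Fin n) := ⟨⟨0, hn⟩⟩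
  obtain ⟨i0, hi0⟩ := Finite.exists_max (fun i => q i / q' i)
  obtain ⟨i1, hi1⟩ := Finite.exists_max (fun i => p' i / p i)
  set α := q i0 / q' i0 with hα
  set β := p' i1 / p i1 with hβ
  have hα0 : 0 < α := div_pos (hq _) (hq' _)
  have hβ0 : 0 < β := div_pos (hp' _) (hp _)
  have b1 : ∀ j, q j ≤ α * q' j := fun j => by
    have := hi0 j
    rwa [div_le_iff₀ (hq' j)] at this
  have b2 : ∀ j, p' j ≤ β * p j := fun j => by
    have := hi1 j
    rwa [div_le_iff₀ (hp j)] at this
  have c1 : ∀ i, phi V q i ≤ α * phi V q' i := fun i => by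
    unfold phi
    rw [mul_sum]
    exact sum_le_sum fun j _ => by
      calc V j i * q j ≤ V j i * (α * q' j) := mul_le_mul_of_nonneg_left (b1 j) (hV j i)
        _ = α * (V j i * q' j) := by ring
  have c2 : ∀ i, psi V p' i ≤ β * psi V p i := fun i => by
    unfold psi
    rw [mul_sum]
    exact sum_le_sum fun j _ => by
      calc V i j * p' j ≤ V i j * (β * p j) := mul_le_mul_of_nonneg_left (b2 j) (hV i j)
        _ = β * (V i j * p j) := by ring
  have f1 : ∀ i, 0 < phi V q i := fun i => by
    have := h.e1 i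
    have hB := Sys.B_pos hV hs le_rfl h i
    have h2 : 0 < q i * (s ^ 2 + (psi V p i + 0) * (phi V q i + 0)) := mul_pos (hq i) hB
    rw [this] at h2
    linarith
  have f1' : ∀ i, 0 < phi V q' i := fun i => by
    have := h'.e1 i
    have hB := Sys.B_pos hV hs le_rfl h' i
    have h2 : 0 < q' i * (s ^ 2 + (psi V p' i + 0) * (phi V q' i + 0)) := mul_pos (hq' i) hB
    rw [this] at h2
    linarith
  have f2 : ∀ i, 0 < psi V p i := fun i => by
    have := h.e2 i
    have hB := Sys.B_pos hV hs le_rfl h i
    have h2 : 0 < p i * (s ^ 2 + (psi V p i + 0) * (phi V q i + 0)) := mul_pos (hp i) hB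
    rw [this] at h2
    linarith
  have f2' : ∀ i, 0 < psi V p' i := fun i => by
    have := h'.e2 i
    have hB := Sys.B_pos hV hs le_rfl h' i
    have h2 : 0 < p' i * (s ^ 2 + (psi V p' i + 0) * (phi V q' i + 0)) := mul_pos (hp' i) hB
    rw [this] at h2
    linarith
  -- comparison at an index where the maximum of `q / q'` is attained
  have cmp1 : ∀ i, q i = α * q' i → α ≤ β ∧ (α = β → phi V q i = α * phi V q' i ∧
      psi V p' i = α * psi V p i) := by
    intro i hi
    refine alg1 (s := s) (a := phi V q i) (b := phi V q' i) (c := psi V p i) (d := psi V p' i)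
      (u := q' i) hs (f1 i) (f1' i) (f2 i) (hq' i) hα0 ?_ ?_ (c1 i) (c2 i)
    · have := h'.e1 i
      linear_combination this
    · have := h.e1 i
      rw [hi] at this
      linear_combination this
  have cmp2 : β ≤ α := by
    have e : p' i1 = β * p i1 := by rw [hβ]; field_simp [(hp i1).ne']
    refine (alg1 (s := s) (a := psi V p' i1) (b := psi V p i1) (c := phi V q' i1)
      (d := phi V q i1) (u := p i1) (α := β) (β := α) hs (f2' i1) (f2 i1) (f1' i1) (hp i1) hβ0
      ?_ ?_ (c2 i1) (c1 i1)).1
    · have := h.e2 i1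
      linear_combination this
    · have := h'.e2 i1
      rw [e] at this
      linear_combination this
  have ei0 : q i0 = α * q' i0 := by rw [hα]; field_simp [(hq' i0).ne']
  have hαβ : α = β := le_antisymm (cmp1 i0 ei0).1 cmp2
  -- propagation
  have hall : ∀ i, q i = α * q' i := by
    intro a
    by_contra ha
    obtain ⟨i, j, hi, hj, hij⟩ := exists_cross (S := {i | ¬ q i = α * q' i}) (hI a i0) ha
      (not_not.2 ei0)
    have hj' := not_not.1 hj
    have k1 := ((cmp1 j hj').2 hαβ).1
    apply hi
    by_contra hne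
    have hlt : q i < α * q' i := lt_of_le_of_ne (b1 i) hne
    have : phi V q j < α * phi V q' j := by
      unfold phi
      rw [mul_sum]
      apply sum_lt_sum
      · intro k _
        calc V k j * q k ≤ V k j * (α * q' k) := mul_le_mul_of_nonneg_left (b1 k) (hV k j)
          _ = α * (V k j * q' k) := by ring
      · refine ⟨i, mem_univ i, ?_⟩
        calc V i j * q i < V i j * (α * q' i) := mul_lt_mul_of_pos_left hlt hij
          _ = α * (V i j * q' i) := by ring
    linarith
  have hallp : ∀ j, p' j = α * p j := by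
    intro j
    have : ∃ i, 0 < V i j := by
      by_contra hcon
      push Not at hcon
      have : phi V q j ≤ 0 := sum_nonpos fun k _ =>
        mul_nonpos_of_nonpos_of_nonneg (hcon k) (hq k).le
      linarith [f1 j]
    obtain ⟨i, hi⟩ := this
    have k1 := ((cmp1 i (hall i)).2 hαβ).2
    by_contra hne
    have hlt : p' j < α * p j := lt_of_le_of_ne (by rw [hαβ]; exact b2 j) hne
    have : psi V p' i < α * psi V p i := by
      unfold psi
      rw [mul_sum]
      apply sum_lt_sum
      · intro k _
        calc V i k * p' k ≤ V i k * (α * p k) :=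
              mul_le_mul_of_nonneg_left (by rw [hαβ]; exact b2 k) (hV i k)
          _ = α * (V i k * p k) := by ring
      · refine ⟨j, mem_univ j, ?_⟩
        calc V i j * p' j < V i j * (α * p j) := mul_lt_mul_of_pos_left hlt hi
          _ = α * (V i j * p j) := by ring
    linarith
  have s1 : ∑ i, q i = α * ∑ i, q' i := by
    rw [mul_sum]; exact sum_congr rfl fun i _ => hall i
  have s2 : ∑ i, p' i = α * ∑ i, p i := by
    rw [mul_sum]; exact sum_congr rfl fun i _ => hallp i
  have hpos : 0 < ∑ i, q i := sum_pos (fun i _ => hq i) univ_nonempty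
  have hα1 : α = 1 := by
    have e : ∑ i, q i = α * (α * ∑ i, q i) := by
      calc ∑ i, q i = α * ∑ i, q' i := s1
        _ = α * ∑ i, p' i := by rw [h'.sum]
        _ = α * (α * ∑ i, p i) := by rw [s2]
        _ = α * (α * ∑ i, q i) := by rw [h.sum]
    have e2 : (α * α - 1) * ∑ i, q i = 0 := by linear_combination -e
    rcases mul_eq_zero.1 e2 with h1 | h1
    · have : (α - 1) * (α + 1) = 0 := by linear_combination h1
      rcases mul_eq_zero.1 this with h2 | h2
      · linarith
      · linarith
    · linarith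
  rw [hα1] at hall hallp
  exact ⟨funext fun i => by rw [hall i, one_mul], funext fun i => by rw [hallp i, one_mul]⟩

end Pool.Agent.Hq78.ME
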